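import Mathlib

namespace MP774a5f

open Finset Real

/-- Lower Mertens-type bound with `p - 1` in the denominator. -/
theorem mertens_lower (n : ℕ) (hn : 1 ≤ n) :
    Real.log n - 1 ≤ ∑ p ∈ (Finset.Icc 1 n).filter Nat.Prime, Real.log p / ((p : ℝ) - 1) := by
  have hn0 : (0 : ℝ) < n := by exact_mod_cast hn
  -- log n! ≥ n log n - n
  have h1 : (n : ℝ) * Real.log n - n ≤ Real.log (n.factorial) := by
    have h := Real.pow_div_factorial_le_exp (n : ℝ) (by positivity) n
    have hf : (0 : ℝ) < (n.factorial : ℝ) := by exact_mod_cast n.factorial_pos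
    have h2 : Real.log ((n : ℝ) ^ n / (n.factorial : ℝ)) ≤ Real.log (Real.exp n) :=
      Real.log_le_log (by positivity) h
    rw [Real.log_div (by positivity) (by positivity), Real.log_pow, Real.log_exp] at h2
    linarith
  -- log n! = sum
  have h2 : Real.log (n.factorial) =
      ∑ p ∈ (Finset.Icc 1 n).filter Nat.Prime, (n.factorial.factorization p : ℝ) * Real.log p := by
    have h3 : (n.factorial : ℝ) = ∏ p ∈ (Finset.Icc 1 n).filter Nat.Prime,
        (p : ℝ) ^ (n.factorial.factorization p) := by
      have h4 := Nat.prod_factorization_pow_eq_self n.factorial_ne_zero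
      have h5 : n.factorial.factorization.prod (fun p k => p ^ k) =
          ∏ p ∈ (Finset.Icc 1 n).filter Nat.Prime, p ^ (n.factorial.factorization p) := by
        apply Finsupp.prod_of_support_subset
        · intro p hp
          rw [Nat.support_factorization, Nat.mem_primeFactors] at hp
          simp only [Finset.mem_filter, Finset.mem_Icc]
          exact ⟨⟨hp.1.one_lt.le, (Nat.Prime.dvd_factorial hp.1).1 hp.2.1⟩, hp.1⟩
        · intro i _; simp
      rw [h5] at h4
      conv_lhs => rw [← h4]
      push_cast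
      rfl
    rw [h3, Real.log_prod]
    · apply Finset.sum_congr rfl
      intro p hp
      rw [Real.log_pow]
    · intro p hp
      have : p ≠ 0 := (Finset.mem_filter.1 hp).2.ne_zero
      positivity
  have h3 : ∀ p ∈ (Finset.Icc 1 n).filter Nat.Prime,
      (n.factorial.factorization p : ℝ) * Real.log p ≤ n * (Real.log p / ((p : ℝ) - 1)) := by
    intro p hp
    have hp' : p.Prime := (Finset.mem_filter.1 hp).2
    have : Fact p.Prime := ⟨hp'⟩
    have h4 := sub_one_mul_padicValNat_factorial (p := p) n
    rw [← Nat.factorization_def _ hp'] at h4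
    have h5 : (p - 1) * n.factorial.factorization p ≤ n := by
      rw [h4]; exact Nat.sub_le _ _
    have hp1 : (1 : ℝ) < p := by exact_mod_cast hp'.one_lt
    have h6 : ((p : ℝ) - 1) * (n.factorial.factorization p : ℝ) ≤ n := by
      have : (((p - 1 : ℕ) : ℝ)) * (n.factorial.factorization p : ℝ) ≤ n := by exact_mod_cast h5
      rwa [Nat.cast_sub hp'.one_lt.le, Nat.cast_one] at this
    have hlog : 0 ≤ Real.log p := Real.log_nonneg hp1.le
    have h7 : (n.factorial.factorization p : ℝ) ≤ n / ((p : ℝ) - 1) := by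
      rw [le_div_iff₀ (by linarith)]; linarith
    calc (n.factorial.factorization p : ℝ) * Real.log p ≤ (n / ((p : ℝ) - 1)) * Real.log p :=
          mul_le_mul_of_nonneg_right h7 hlog
      _ = n * (Real.log p / ((p : ℝ) - 1)) := by ring
  have h4 : (n : ℝ) * Real.log n - n ≤
      n * ∑ p ∈ (Finset.Icc 1 n).filter Nat.Prime, Real.log p / ((p : ℝ) - 1) := by
    rw [Finset.mul_sum]
    calc _ ≤ _ := h1
      _ = _ := h2
      _ ≤ _ := Finset.sum_le_sum h3
  have h5 : (n : ℝ) * (Real.log n - 1) ≤
      n * ∑ p ∈ (Finset.Icc 1 n).filter Nat.Prime, Real.log p / ((p : ℝ) - 1) := by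
    linarith
  exact le_of_mul_le_mul_left h5 hn0

/-- Upper Mertens-type bound. -/
theorem mertens_upper (n : ℕ) (hn : 1 ≤ n) :
    ∑ p ∈ (Finset.Icc 1 n).filter Nat.Prime, Real.log p / (p : ℝ) ≤ Real.log n + Real.log 4 := by
  have hn0 : (0 : ℝ) < n := by exact_mod_cast hn
  have h1 : Real.log (n.factorial) ≤ n * Real.log n := by
    have h : (n.factorial : ℝ) ≤ (n : ℝ) ^ n := by exact_mod_cast n.factorial_le_pow
    have hf : (0 : ℝ) < (n.factorial : ℝ) := by exact_mod_cast n.factorial_pos
    calc Real.log (n.factorial) ≤ Real.log ((n : ℝ) ^ n) := Real.log_le_log hf h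
      _ = n * Real.log n := by rw [Real.log_pow]
  have h2 : Real.log (n.factorial) =
      ∑ p ∈ (Finset.Icc 1 n).filter Nat.Prime, (n.factorial.factorization p : ℝ) * Real.log p := by
    have h3 : (n.factorial : ℝ) = ∏ p ∈ (Finset.Icc 1 n).filter Nat.Prime,
        (p : ℝ) ^ (n.factorial.factorization p) := by
      have h4 := Nat.prod_factorization_pow_eq_self n.factorial_ne_zero
      have h5 : n.factorial.factorization.prod (fun p k => p ^ k) =
          ∏ p ∈ (Finset.Icc 1 n).filter Nat.Prime, p ^ (n.factorial.factorization p) := by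
        apply Finsupp.prod_of_support_subset
        · intro p hp
          rw [Nat.support_factorization, Nat.mem_primeFactors] at hp
          simp only [Finset.mem_filter, Finset.mem_Icc]
          exact ⟨⟨hp.1.one_lt.le, (Nat.Prime.dvd_factorial hp.1).1 hp.2.1⟩, hp.1⟩
        · intro i _; simp
      rw [h5] at h4
      conv_lhs => rw [← h4]
      push_cast
      rfl
    rw [h3, Real.log_prod]
    · apply Finset.sum_congr rfl
      intro p hp
      rw [Real.log_pow]
    · intro p hp
      have : p ≠ 0 := (Finset.mem_filter.1 hp).2.ne_zero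
      positivity
  have h3 : ∀ p ∈ (Finset.Icc 1 n).filter Nat.Prime,
      n * (Real.log p / (p : ℝ)) - Real.log p ≤ (n.factorial.factorization p : ℝ) * Real.log p := by
    intro p hp
    have hp' : p.Prime := (Finset.mem_filter.1 hp).2
    have hp1 : (1 : ℝ) < p := by exact_mod_cast hp'.one_lt
    have hlog : 0 ≤ Real.log p := Real.log_nonneg hp1.le
    have h5 : n / p ≤ n.factorial.factorization p := by
      rw [Nat.factorization_factorial hp' (Nat.lt_succ_self _)]
      have hle : p ≤ n := (Finset.mem_Icc.1 (Finset.mem_filter.1 hp).1).2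
      have : 1 ∈ Finset.Ico 1 (Nat.log p n).succ := by
        simp only [Finset.mem_Ico, le_refl, true_and]
        have : 1 ≤ Nat.log p n := by
          exact Nat.log_pos hp'.one_lt hle
        omega
      calc n / p = n / p ^ 1 := by rw [pow_one]
        _ ≤ _ := Finset.single_le_sum (f := fun i => n / p ^ i) (fun i _ => Nat.zero_le _) this
    have h6 : (n : ℝ) / p - 1 ≤ (n.factorial.factorization p : ℝ) := by
      have h7 : (n : ℝ) / p < (n / p : ℕ) + 1 := by
        rw [div_lt_iff₀ (by linarith)]
        have := Nat.lt_div_mul_add (a := n) (b := p) hp'.pos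
        have h8 : (n : ℝ) < (n / p : ℕ) * p + p := by exact_mod_cast this
        linarith
      have h8 : ((n / p : ℕ) : ℝ) ≤ (n.factorial.factorization p : ℝ) := by exact_mod_cast h5
      linarith
    calc n * (Real.log p / (p : ℝ)) - Real.log p = ((n : ℝ) / p - 1) * Real.log p := by ring
      _ ≤ _ := mul_le_mul_of_nonneg_right h6 hlog
  have h4 : ∑ p ∈ (Finset.Icc 1 n).filter Nat.Prime, Real.log p ≤ Real.log 4 * n := by
    have h5 := Chebyshev.theta_le_log4_mul_x (x := (n : ℝ)) (by positivity)
    rw [Chebyshev.theta_eq_sum_Icc] at h5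
    rw [Nat.floor_natCast] at h5
    refine le_trans ?_ h5
    apply Finset.sum_le_sum_of_subset_of_nonneg
    · intro p hp
      simp only [Finset.mem_filter, Finset.mem_Icc] at hp ⊢
      exact ⟨⟨by omega, hp.1.2⟩, hp.2⟩
    · intro p hp _
      have := (Finset.mem_filter.1 hp).2
      exact Real.log_nonneg (by exact_mod_cast this.one_lt.le)
  have h5 : n * ∑ p ∈ (Finset.Icc 1 n).filter Nat.Prime, Real.log p / (p : ℝ) -
      ∑ p ∈ (Finset.Icc 1 n).filter Nat.Prime, Real.log p ≤ n * Real.log n := by
    rw [Finset.mul_sum, ← Finset.sum_sub_distrib]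
    calc _ ≤ _ := Finset.sum_le_sum h3
      _ = _ := h2.symm
      _ ≤ _ := h1
  have h6 : n * ∑ p ∈ (Finset.Icc 1 n).filter Nat.Prime, Real.log p / (p : ℝ) ≤
      n * (Real.log n + Real.log 4) := by linarith
  exact le_of_mul_le_mul_left h6 hn0


end MP774a5f
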