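import Pool.Agent.Lib.MP_774a5f_nt.MeanValue
import Pool.Agent.Lib.MP_774a5f_nt.Mertens

/-!
# The choice of the resonator and sums over primes
-/

namespace MP774a5f

open ArithmeticFunction Finset

/-- primes up to `y` -/
def Pr (y : ℕ) : Finset ℕ := (Icc 1 y).filter Nat.Prime

/-- `∑_{p ≤ n} log p ≤ n log 4`. -/
theorem theta_le (n : ℕ) : ∑ p ∈ Pr n, Real.log p ≤ n * Real.log 4 := by
  have h1 : ∑ p ∈ Pr n, Real.log p = Real.log (primorial n) := by
    unfold primorial Pr
    rw [Nat.cast_prod, Real.log_prod]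
    · apply Finset.sum_congr _ (fun _ _ => rfl)
      ext p
      simp only [mem_filter, mem_Icc, mem_range]
      constructor
      · rintro ⟨⟨_, h2⟩, h3⟩
        exact ⟨by omega, h3⟩
      · rintro ⟨h2, h3⟩
        exact ⟨⟨h3.one_lt.le, by omega⟩, h3⟩
    · intro p hp
      have := (mem_filter.1 hp).2.ne_zero
      exact_mod_cast this
  rw [h1]
  have h2 : (primorial n : ℝ) ≤ (4 : ℝ) ^ n := by exact_mod_cast primorial_le_four_pow n
  calc Real.log (primorial n) ≤ Real.log ((4 : ℝ) ^ n) :=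
        Real.log_le_log (by exact_mod_cast primorial_pos n) h2
    _ = n * Real.log 4 := by rw [Real.log_pow]

theorem Pr_succ (n : ℕ) : Pr (n + 1) = if (n + 1).Prime then insert (n + 1) (Pr n) else Pr n := by
  unfold Pr
  ext p
  split_ifs with h
  · simp only [mem_filter, mem_Icc, mem_insert]
    constructor
    · rintro ⟨⟨h1, h2⟩, h3⟩
      by_cases hp : p = n + 1
      · exact Or.inl hp
      · exact Or.inr ⟨⟨h1, by omega⟩, h3⟩
    · rintro (rfl | ⟨⟨h1, h2⟩, h3⟩)
      · exact ⟨⟨by omega, le_rfl⟩, h⟩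
      · exact ⟨⟨h1, by omega⟩, h3⟩
  · simp only [mem_filter, mem_Icc]
    constructor
    · rintro ⟨⟨h1, h2⟩, h3⟩
      refine ⟨⟨h1, ?_⟩, h3⟩
      by_contra hc
      have : p = n + 1 := by omega
      exact h (this ▸ h3)
    · rintro ⟨⟨h1, h2⟩, h3⟩
      exact ⟨⟨h1, by omega⟩, h3⟩

theorem sum_Pr_succ (f : ℕ → ℝ) (n : ℕ) :
    ∑ p ∈ Pr (n + 1), f p = (∑ p ∈ Pr n, f p) + if (n + 1).Prime then f (n + 1) else 0 := by
  rw [Pr_succ]
  split_ifs with h
  · rw [Finset.sum_insert, add_comm]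
    unfold Pr
    simp
  · simp

/-- `∑_{p ≤ n} log p / √p ≤ 2 log 4 √n`. -/
theorem sum_log_div_sqrt_le (n : ℕ) :
    ∑ p ∈ Pr n, Real.log p / Real.sqrt p ≤ 2 * Real.log 4 * Real.sqrt n := by
  have key : ∀ n : ℕ, 1 ≤ n → ∑ p ∈ Pr n, Real.log p / Real.sqrt p ≤
      (∑ p ∈ Pr n, Real.log p) / Real.sqrt n + Real.log 4 * Real.sqrt n := by
    intro n hn
    induction n, hn using Nat.le_induction with
    | base =>
      have : Pr 1 = ∅ := by
        unfold Pr
        ext p
        simp only [mem_filter, mem_Icc, notMem_empty, iff_false]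
        rintro ⟨⟨h1, h2⟩, h3⟩
        have := h3.two_le
        omega
      rw [this]
      simp
      exact Real.log_nonneg (by norm_num)
    | succ n hn ih =>
      rw [sum_Pr_succ, sum_Pr_succ]
      have hn' : (1 : ℝ) ≤ n := by exact_mod_cast hn
      have hs : 0 < Real.sqrt n := Real.sqrt_pos.2 (by linarith)
      have hs1 : 0 < Real.sqrt ((n + 1 : ℕ) : ℝ) := Real.sqrt_pos.2 (by positivity)
      set a := Real.sqrt n with ha
      set b := Real.sqrt ((n + 1 : ℕ) : ℝ) with hb
      set L := Real.log 4 with hL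
      have hL0 : 0 ≤ L := Real.log_nonneg (by norm_num)
      set th := ∑ p ∈ Pr n, Real.log p with hth
      have hab : a ≤ b := Real.sqrt_le_sqrt (by push_cast; linarith)
      have hth1 : th ≤ a * a * L := by
        have := theta_le n
        rw [ha, Real.mul_self_sqrt (by linarith)]
        exact this
      have hth0 : 0 ≤ th := Finset.sum_nonneg fun p hp => by
        have := (mem_filter.1 hp).2.one_lt.le
        exact Real.log_nonneg (by exact_mod_cast this)
      have h3 : th / a - th / b ≤ L * (b - a) := by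
        have : th / a - th / b = th * (b - a) / (a * b) := by
          field_simp
        rw [this, div_le_iff₀ (by positivity)]
        have h5 : th * (b - a) ≤ a * a * L * (b - a) :=
          mul_le_mul_of_nonneg_right hth1 (by linarith)
        have h6 : a * a * L * (b - a) ≤ L * (b - a) * (a * b) := by
          have : 0 ≤ L * (b - a) * (a * (b - a)) := by
            have : 0 ≤ b - a := by linarith
            positivity
          nlinarith
        linarith
      have h4 : (th + if (n + 1).Prime then Real.log ((n + 1 : ℕ) : ℝ) else 0) / b =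
          th / b + (if (n + 1).Prime then Real.log ((n + 1 : ℕ) : ℝ) / b else 0) := by
        split_ifs
        · rw [add_div]
        · simp
      rw [h4]
      linarith
  rcases Nat.eq_zero_or_pos n with rfl | hn
  · unfold Pr
    simp
  · have h1 := key n hn
    have hn' : (0 : ℝ) < n := by exact_mod_cast hn
    have h2 : (∑ p ∈ Pr n, Real.log p) / Real.sqrt n ≤ Real.log 4 * Real.sqrt n := by
      rw [div_le_iff₀ (Real.sqrt_pos.2 hn'), mul_assoc, Real.mul_self_sqrt hn'.le]
      linarith [theta_le n]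
    linarith

/-- the exponents -/
def dd (y p : ℕ) : ℕ := Nat.sqrt (y / p)

/-- the modulus -/
def QQ (y : ℕ) : ℕ := ∏ p ∈ Pr y, p ^ dd y p

theorem QQ_pos (y : ℕ) : 0 < QQ y := by
  unfold QQ
  exact Finset.prod_pos fun p hp => pow_pos (mem_filter.1 hp).2.pos _

theorem dd_le {y p : ℕ} (hp : 0 < p) : (dd y p : ℝ) ≤ Real.sqrt y / Real.sqrt p := by
  have h1 : (dd y p) ^ 2 ≤ y / p := Nat.sqrt_le' _
  have h2 : ((dd y p : ℕ) : ℝ) ^ 2 ≤ (y : ℝ) / p := by
    calc ((dd y p : ℕ) : ℝ) ^ 2 ≤ ((y / p : ℕ) : ℝ) := by exact_mod_cast h1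
      _ ≤ (y : ℝ) / p := Nat.cast_div_le
  rw [← Real.sqrt_div (by positivity)]
  exact Real.le_sqrt_of_sq_le h2

theorem le_dd {y p : ℕ} (hp : 0 < p) : Real.sqrt y / Real.sqrt p ≤ (dd y p : ℝ) + 1 := by
  have h1 : y / p < (dd y p + 1) ^ 2 := Nat.lt_succ_sqrt' _
  have h2 : y < (dd y p + 1) ^ 2 * p := by
    rwa [Nat.div_lt_iff_lt_mul hp] at h1
  have hp' : (0 : ℝ) < p := by exact_mod_cast hp
  rw [← Real.sqrt_div (by positivity)]
  apply Real.sqrt_le_iff.2
  refine ⟨by positivity, ?_⟩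
  rw [div_le_iff₀ hp']
  have h3 : (y : ℝ) < ((dd y p : ℝ) + 1) ^ 2 * p := by exact_mod_cast h2
  exact h3.le

theorem log_QQ (y : ℕ) : Real.log (QQ y) ≤ 2 * Real.log 4 * y := by
  have h1 : Real.log (QQ y) = ∑ p ∈ Pr y, (dd y p : ℝ) * Real.log p := by
    unfold QQ
    rw [Nat.cast_prod, Real.log_prod]
    · apply Finset.sum_congr rfl
      intro p _
      rw [Nat.cast_pow, Real.log_pow]
    · intro p hp
      have := (mem_filter.1 hp).2.ne_zero
      positivity
  rw [h1]
  calc ∑ p ∈ Pr y, (dd y p : ℝ) * Real.log p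
      ≤ ∑ p ∈ Pr y, Real.sqrt y * (Real.log p / Real.sqrt p) := by
        apply Finset.sum_le_sum
        intro p hp
        have hp' := (mem_filter.1 hp).2
        have h2 : 0 ≤ Real.log p := Real.log_nonneg (by exact_mod_cast hp'.one_lt.le)
        calc (dd y p : ℝ) * Real.log p ≤ (Real.sqrt y / Real.sqrt p) * Real.log p :=
              mul_le_mul_of_nonneg_right (dd_le hp'.pos) h2
          _ = Real.sqrt y * (Real.log p / Real.sqrt p) := by ring
    _ = Real.sqrt y * ∑ p ∈ Pr y, Real.log p / Real.sqrt p := by rw [Finset.mul_sum]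
    _ ≤ Real.sqrt y * (2 * Real.log 4 * Real.sqrt y) :=
        mul_le_mul_of_nonneg_left (sum_log_div_sqrt_le y) (Real.sqrt_nonneg _)
    _ = 2 * Real.log 4 * y := by
        have := Real.mul_self_sqrt (show (0 : ℝ) ≤ (y : ℝ) by positivity)
        calc Real.sqrt y * (2 * Real.log 4 * Real.sqrt y)
            = 2 * Real.log 4 * (Real.sqrt y * Real.sqrt y) := by ring
          _ = _ := by rw [this]

theorem W_QQ {y p : ℕ} (hp : p ∈ Pr y) :
    (W (QQ y) p : ℝ) = (QQ y).divisors.card * ((dd y p : ℝ) / (dd y p + 1)) := by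
  have hpp := (mem_filter.1 hp).2
  set m : ℕ := ∏ q ∈ (Pr y).erase p, q ^ dd y q with hm
  have hQ : QQ y = p ^ dd y p * m := by
    unfold QQ
    rw [hm, Finset.mul_prod_erase (Pr y) (fun q => q ^ dd y q) hp]
  have hcop : Nat.Coprime p m := by
    rw [hm]
    apply Nat.Coprime.prod_right
    intro q hq
    have hq' := mem_erase.1 hq
    apply Nat.Coprime.pow_right
    exact (Nat.coprime_primes hpp (mem_filter.1 hq'.2).2).2 (Ne.symm hq'.1)
  have hm0 : m ≠ 0 := by
    intro h
    rw [h, mul_zero] at hQ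
    exact (QQ_pos y).ne' hQ
  have hcard : ∀ k : ℕ, (p ^ k * m).divisors.card = (k + 1) * m.divisors.card := by
    intro k
    rw [Nat.Coprime.card_divisors_mul (Nat.Coprime.pow_left k hcop), Nat.divisors_prime_pow hpp,
      Finset.card_map, Finset.card_range]
  rw [hQ]
  rcases Nat.eq_zero_or_pos (dd y p) with h0 | hpos
  · rw [h0]
    have : W (p ^ 0 * m) p = 0 := by
      unfold W
      rw [Finset.card_eq_zero, Finset.filter_eq_empty_iff]
      intro b _ hb
      rw [pow_zero, one_mul] at hb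
      have h1 : p ∣ m := (Dvd.intro_left b rfl).trans (Nat.dvd_of_mem_divisors hb)
      have h2 : p ∣ 1 := by
        have := Nat.dvd_gcd (dvd_refl p) h1
        rwa [hcop] at this
      exact hpp.one_lt.ne' (Nat.dvd_one.1 h2)
    rw [this]
    simp
  · obtain ⟨k, hk⟩ : ∃ k, dd y p = k + 1 := ⟨dd y p - 1, by omega⟩
    rw [hk]
    have hW : W (p ^ (k + 1) * m) p = (p ^ k * m).divisors.card := by
      unfold W
      congr 1
      ext b
      simp only [mem_filter, Nat.mem_divisors]
      have hne : p ^ k * m ≠ 0 := mul_ne_zero (pow_ne_zero _ hpp.ne_zero) hm0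
      have hne' : p ^ (k + 1) * m ≠ 0 := mul_ne_zero (pow_ne_zero _ hpp.ne_zero) hm0
      have e : p ^ (k + 1) * m = (p ^ k * m) * p := by ring
      constructor
      · rintro ⟨_, h2, _⟩
        rw [e] at h2
        exact ⟨Nat.dvd_of_mul_dvd_mul_right hpp.pos h2, hne⟩
      · rintro ⟨h1, _⟩
        refine ⟨⟨?_, hne'⟩, ?_, hne'⟩
        · rw [e]; exact h1.mul_right p
        · rw [e]; exact Nat.mul_dvd_mul_right h1 p
    rw [hW, hcard, hcard]
    push_cast
    field_simp

/-- the constant in Mertens' lower bound -/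
theorem mertens_low : ∃ C : ℝ, 0 ≤ C ∧ ∀ y : ℕ, 1 ≤ y →
    Real.log y - C ≤ ∑ p ∈ Pr y, Real.log p / p := by
  have hs : Summable fun n : ℕ => 4 / (n : ℝ) ^ (3 / 2 : ℝ) := by
    have := (Real.summable_one_div_nat_rpow (p := (3 / 2 : ℝ))).2 (by norm_num)
    simpa [div_eq_mul_inv] using this.mul_left 4
  have hnn : ∀ n : ℕ, 0 ≤ 4 / (n : ℝ) ^ (3 / 2 : ℝ) := fun n => by positivity
  refine ⟨1 + ∑' n : ℕ, 4 / (n : ℝ) ^ (3 / 2 : ℝ), ?_, ?_⟩
  · have : 0 ≤ ∑' n : ℕ, 4 / (n : ℝ) ^ (3 / 2 : ℝ) := tsum_nonneg hnn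
    linarith
  · intro y hy
    have h1 := mertens_lower y hy
    have h2 : ∑ p ∈ Pr y, Real.log p / ((p : ℝ) - 1) ≤
        ∑ p ∈ Pr y, (Real.log p / p + 4 / (p : ℝ) ^ (3 / 2 : ℝ)) := by
      apply Finset.sum_le_sum
      intro p hp
      have hpp := (mem_filter.1 hp).2
      have hp2 : (2 : ℝ) ≤ p := by exact_mod_cast hpp.two_le
      have hlog : Real.log p ≤ 2 * Real.sqrt p := by
        have h3 : Real.log (Real.sqrt p) ≤ Real.sqrt p - 1 :=
          Real.log_le_sub_one_of_pos (Real.sqrt_pos.2 (by linarith))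
        rw [Real.log_sqrt (by linarith)] at h3
        linarith
      have e1 : Real.log p / ((p : ℝ) - 1) = Real.log p / p + Real.log p / (p * (p - 1)) := by
        have : (p : ℝ) - 1 ≠ 0 := by linarith
        field_simp
        ring
      rw [e1]
      have h32 : (p : ℝ) ^ (3 / 2 : ℝ) = p * Real.sqrt p := by
        rw [show (3 / 2 : ℝ) = 1 + 1 / 2 by norm_num, Real.rpow_add (by linarith), Real.rpow_one,
          ← Real.sqrt_eq_rpow]
      have hsp : 0 < Real.sqrt p := Real.sqrt_pos.2 (by linarith)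
      have h4 : Real.log p / (p * (p - 1)) ≤ 4 / (p : ℝ) ^ (3 / 2 : ℝ) := by
        rw [h32, div_le_div_iff₀ (by nlinarith) (by positivity)]
        have h5 : Real.sqrt p * Real.sqrt p = p := Real.mul_self_sqrt (by linarith)
        have h6 : Real.log p * (p * Real.sqrt p) ≤ 2 * Real.sqrt p * (p * Real.sqrt p) :=
          mul_le_mul_of_nonneg_right hlog (by positivity)
        have h7 : 2 * Real.sqrt p * (p * Real.sqrt p) = 2 * p * p := by
          calc 2 * Real.sqrt p * (p * Real.sqrt p) = 2 * p * (Real.sqrt p * Real.sqrt p) := by ring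
            _ = 2 * p * p := by rw [h5]
        nlinarith
      linarith
    rw [Finset.sum_add_distrib] at h2
    have h3 : ∑ p ∈ Pr y, 4 / (p : ℝ) ^ (3 / 2 : ℝ) ≤ ∑' n : ℕ, 4 / (n : ℝ) ^ (3 / 2 : ℝ) :=
      hs.sum_le_tsum _ (fun n _ => hnn n)
    unfold Pr at *
    linarith

/-- the main term -/
theorem main_term : ∃ K : ℝ, 0 ≤ K ∧ ∀ (y : ℕ), 1 ≤ y → ∀ δ : ℝ, 0 ≤ δ →
    δ * (Real.log y * (Real.log y + Real.log 4)) ≤ 1 →
    (QQ y).divisors.card * (Real.log y - K) ≤
      ∑ p ∈ Pr y, Λ p / (p : ℝ) ^ (1 + δ) * W (QQ y) p := by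
  obtain ⟨C, hC0, hC⟩ := mertens_low
  have hl4 : 0 ≤ Real.log 4 := Real.log_nonneg (by norm_num)
  refine ⟨C + 1 + 2 * Real.log 4, by positivity, ?_⟩
  intro y hy δ hδ hδy
  have hy' : (1 : ℝ) ≤ y := by exact_mod_cast hy
  have hsy : 0 < Real.sqrt y := Real.sqrt_pos.2 (by linarith)
  have hterm : ∀ p ∈ Pr y, (QQ y).divisors.card *
      (Real.log p / p - δ * Real.log y * (Real.log p / p) -
        (1 / Real.sqrt y) * (Real.log p / Real.sqrt p)) ≤
      Λ p / (p : ℝ) ^ (1 + δ) * W (QQ y) p := by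
    intro p hp
    have hpp := (mem_filter.1 hp).2
    have hpy : p ≤ y := (mem_Icc.1 (mem_filter.1 hp).1).2
    have hp1 : (1 : ℝ) < p := by exact_mod_cast hpp.one_lt
    have hp0 : (0 : ℝ) < p := by linarith
    have hpy' : (p : ℝ) ≤ y := by exact_mod_cast hpy
    have hsp : 0 < Real.sqrt p := Real.sqrt_pos.2 hp0
    have hlp : 0 ≤ Real.log p := Real.log_nonneg hp1.le
    rw [W_QQ hp, vonMangoldt_apply_prime hpp]
    have h1 : 1 - Real.sqrt p / Real.sqrt y ≤ (dd y p : ℝ) / (dd y p + 1) := by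
      have h2 := le_dd (y := y) hpp.pos
      have h3 : (0 : ℝ) ≤ dd y p := Nat.cast_nonneg _
      have h4 : (dd y p : ℝ) / (dd y p + 1) = 1 - 1 / ((dd y p : ℝ) + 1) := by
        field_simp
        ring
      rw [h4]
      have h5 : 1 / ((dd y p : ℝ) + 1) ≤ Real.sqrt p / Real.sqrt y := by
        rw [div_le_div_iff₀ (by positivity) hsy]
        rw [div_le_iff₀ hsp] at h2
        linarith
      linarith
    have h2 : Real.log p / (p : ℝ) ^ (1 + δ) ≥ Real.log p / p * (1 - δ * Real.log y) := by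
      rw [Real.rpow_add hp0, Real.rpow_one, div_mul_eq_div_div, ge_iff_le,
        div_eq_mul_inv (Real.log p / p)]
      apply mul_le_mul_of_nonneg_left _ (by positivity)
      rw [← Real.rpow_neg hp0.le, Real.rpow_def_of_pos hp0]
      have h3 := Real.add_one_le_exp (Real.log p * -δ)
      have h4 : Real.log p ≤ Real.log y := Real.log_le_log hp0 hpy'
      nlinarith
    have h3 : 0 ≤ Real.log p / (p : ℝ) ^ (1 + δ) := by positivity
    have h3' : Real.log p / (p : ℝ) ^ (1 + δ) ≤ Real.log p / p := by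
      apply div_le_div_of_nonneg_left hlp hp0
      calc (p : ℝ) = (p : ℝ) ^ (1 : ℝ) := (Real.rpow_one _).symm
        _ ≤ (p : ℝ) ^ (1 + δ) := Real.rpow_le_rpow_of_exponent_le hp1.le (by linarith)
    have h4 : Real.log p / p - δ * Real.log y * (Real.log p / p) -
        (1 / Real.sqrt y) * (Real.log p / Real.sqrt p) ≤
        Real.log p / (p : ℝ) ^ (1 + δ) * ((dd y p : ℝ) / (dd y p + 1)) := by
      have h5 : Real.log p / (p : ℝ) ^ (1 + δ) * (1 - Real.sqrt p / Real.sqrt y) ≤
          Real.log p / (p : ℝ) ^ (1 + δ) * ((dd y p : ℝ) / (dd y p + 1)) :=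
        mul_le_mul_of_nonneg_left h1 h3
      have h6 : Real.log p / (p : ℝ) ^ (1 + δ) * (Real.sqrt p / Real.sqrt y) ≤
          Real.log p / p * (Real.sqrt p / Real.sqrt y) :=
        mul_le_mul_of_nonneg_right h3' (by positivity)
      have h7 : Real.log p / p * (Real.sqrt p / Real.sqrt y) =
          (1 / Real.sqrt y) * (Real.log p / Real.sqrt p) := by
        have : (p : ℝ) = Real.sqrt p * Real.sqrt p := (Real.mul_self_sqrt hp0.le).symm
        rw [show Real.log p / (p : ℝ) = Real.log p / (Real.sqrt p * Real.sqrt p) by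
          rw [Real.mul_self_sqrt hp0.le]]
        field_simp
      have h8 : Real.log p / p * (1 - δ * Real.log y) =
          Real.log p / p - δ * Real.log y * (Real.log p / p) := by ring
      have h9 : Real.log p / (p : ℝ) ^ (1 + δ) * (1 - Real.sqrt p / Real.sqrt y) =
          Real.log p / (p : ℝ) ^ (1 + δ) -
            Real.log p / (p : ℝ) ^ (1 + δ) * (Real.sqrt p / Real.sqrt y) := by ring
      linarith
    calc (QQ y).divisors.card * (Real.log p / p - δ * Real.log y * (Real.log p / p) -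
        (1 / Real.sqrt y) * (Real.log p / Real.sqrt p))
        ≤ (QQ y).divisors.card * (Real.log p / (p : ℝ) ^ (1 + δ) *
          ((dd y p : ℝ) / (dd y p + 1))) := mul_le_mul_of_nonneg_left h4 (Nat.cast_nonneg _)
      _ = _ := by ring
  refine le_trans ?_ (Finset.sum_le_sum hterm)
  rw [← Finset.mul_sum]
  apply mul_le_mul_of_nonneg_left _ (Nat.cast_nonneg _)
  rw [Finset.sum_sub_distrib, Finset.sum_sub_distrib, ← Finset.mul_sum, ← Finset.mul_sum]
  have h1 := hC y hy
  have h2 := mertens_upper y hy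
  have h3 := sum_log_div_sqrt_le y
  have h4 : (1 / Real.sqrt y) * ∑ p ∈ Pr y, Real.log p / Real.sqrt p ≤ 2 * Real.log 4 := by
    rw [one_div, inv_mul_le_iff₀ hsy]
    linarith
  have hly : 0 ≤ Real.log y := Real.log_nonneg hy'
  have h5 : δ * Real.log y * ∑ p ∈ Pr y, Real.log p / p ≤ 1 := by
    calc δ * Real.log y * ∑ p ∈ Pr y, Real.log p / p
        ≤ δ * Real.log y * (Real.log y + Real.log 4) :=
          mul_le_mul_of_nonneg_left h2 (by positivity)
      _ = δ * (Real.log y * (Real.log y + Real.log 4)) := by ring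
      _ ≤ 1 := hδy
  linarith

end MP774a5f
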