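import Mathlib

/-!
# The maximum of the rotated logarithmic derivative of zeta on the 1-line
-/

namespace MP774a5f

/-- `Re (e^{-iθ} (ζ'/ζ)(1 + it))`. -/
noncomputable def rotLogDeriv (θ t : ℝ) : ℝ :=
  (Complex.exp (-(θ : ℂ) * Complex.I) *
    (deriv riemannZeta (1 + t * Complex.I) / riemannZeta (1 + t * Complex.I))).re

/-- `M(T, θ) = max_{T ≤ t ≤ 2T} Re (e^{-iθ} (ζ'/ζ)(1 + it))`. -/
noncomputable def M (T θ : ℝ) : ℝ := sSup (rotLogDeriv θ '' Set.Icc T (2 * T))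

end MP774a5f
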