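import Pool.Agent.Lib.MP_774a5f_nt.Series

/-!
# From the 1-line to the right: a maximum principle
-/

namespace MP774a5f

open Complex ArithmeticFunction Filter Topology Set

/-- `e^{-iθ} ζ'(s)/ζ(s)`. -/
noncomputable def g (θ : ℝ) (s : ℂ) : ℂ :=
  exp (-(θ : ℂ) * I) * (deriv riemannZeta s / riemannZeta s)

theorem norm_rot (θ : ℝ) : ‖exp (-(θ : ℂ) * I)‖ = 1 := by
  rw [← Complex.ofReal_neg, Complex.norm_exp_ofReal_mul_I]

theorem norm_g (θ : ℝ) (s : ℂ) : ‖g θ s‖ = ‖deriv riemannZeta s / riemannZeta s‖ := by
  unfold g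
  rw [norm_mul, norm_rot, one_mul]

theorem g_differentiableAt (θ : ℝ) {s : ℂ} (h1 : 1 ≤ s.re) (h2 : 0 < s.im) :
    DifferentiableAt ℂ (g θ) s := by
  have hs : s ≠ 1 := by
    rintro rfl
    simp at h2
  have hz := riemannZeta_ne_zero_of_one_le_re h1
  have hd : DifferentiableAt ℂ riemannZeta s := differentiableAt_riemannZeta hs
  have hdd : DifferentiableAt ℂ (deriv riemannZeta) s := by
    have h3 : DifferentiableOn ℂ riemannZeta ({1}ᶜ : Set ℂ) := fun z hz =>
      (differentiableAt_riemannZeta hz).differentiableWithinAt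
    have h4 := h3.deriv isOpen_compl_singleton
    exact (h4 s hs).differentiableAt (isOpen_compl_singleton.mem_nhds hs)
  exact (hdd.div hd hz).const_mul _

theorem re_inv_nonneg {z : ℂ} (h : 0 ≤ z.re) : 0 ≤ (1 / z).re := by
  rw [one_div, Complex.inv_re]
  exact div_nonneg h (Complex.normSq_nonneg z)

theorem re_inv_le {z : ℂ} {d : ℝ} (h : 0 ≤ z.re) (hd : 0 < d) (hi : d ≤ |z.im|) :
    (1 / z).re ≤ z.re / d ^ 2 := by
  rw [one_div, Complex.inv_re]
  apply div_le_div_of_nonneg_left h (by positivity)
  rw [Complex.normSq_apply]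
  have : d ^ 2 ≤ z.im ^ 2 := by
    rw [← sq_abs z.im]
    exact pow_le_pow_left₀ hd.le hi 2
  nlinarith [mul_self_nonneg z.re]

theorem transfer : ∃ C : ℝ, 1 ≤ C ∧ ∃ H0 : ℝ, 0 < H0 ∧ ∀ T H : ℝ, 0 < T → H0 ≤ H → ∀ θ V : ℝ,
    C ≤ V → (∀ t : ℝ, T ≤ t → t ≤ T + H → (g θ (1 + t * I)).re ≤ V) →
    ∀ σ t : ℝ, 1 < σ → σ ≤ 3 → T + H / 4 ≤ t → t ≤ T + 3 * H / 4 →
    (g θ (σ + t * I)).re ≤ V + 1 := by
  obtain ⟨C, hC1, hC⟩ := absSeries_bound
  have hC0 : 0 < C := by linarith
  refine ⟨C, hC1, Real.sqrt (400 * C) , Real.sqrt_pos.2 (by positivity), ?_⟩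
  intro T H hT hH θ V hV hline σ t hσ1 hσ3 ht1 ht2
  have hH0 : 0 < H := lt_of_lt_of_le (Real.sqrt_pos.2 (by positivity)) hH
  have hHsq : 400 * C ≤ H ^ 2 := by
    have := Real.sq_sqrt (show (0 : ℝ) ≤ 400 * C by positivity)
    nlinarith [Real.sqrt_nonneg (400 * C)]
  -- continuity at the corners
  have hcont : ∀ u : ℝ, 0 < u → ∃ ε : ℝ, 0 < ε ∧ ∀ x : ℝ, 1 ≤ x → x < 1 + ε →
      (g θ (x + u * I)).re ≤ (g θ (1 + u * I)).re + 1 / 2 := by
    intro u hu
    have h1 : DifferentiableAt ℂ (g θ) (1 + u * I) := g_differentiableAt θ (by simp) (by simpa)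
    have h2 : ContinuousAt (fun x : ℝ => (g θ (x + u * I)).re) 1 := by
      have h3 : ContinuousAt (g θ) (((1 : ℝ) : ℂ) + u * I) := by
        simpa using h1.continuousAt
      have h4 : ContinuousAt (fun x : ℝ => ((x : ℂ) + u * I)) 1 := by fun_prop
      exact Complex.continuous_re.continuousAt.comp (ContinuousAt.comp (g := g θ) h3 h4)
    rw [Metric.continuousAt_iff] at h2
    obtain ⟨ε, hε, h3⟩ := h2 (1 / 2) (by norm_num)
    refine ⟨ε, hε, fun x hx1 hx2 => ?_⟩
    have h4 := h3 (x := x) (by
      rw [Real.dist_eq, abs_lt]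
      constructor <;> linarith)
    rw [Real.dist_eq] at h4
    have h5 := (abs_lt.1 h4).2
    simp only [Complex.ofReal_one] at h5
    linarith
  obtain ⟨ε0, hε0, hc0⟩ := hcont T hT
  obtain ⟨ε1, hε1, hc1⟩ := hcont (T + H) (by linarith)
  set ε : ℝ := min (min ε0 ε1) 1 with hε
  have hεpos : 0 < ε := by
    rw [hε]
    exact lt_min (lt_min hε0 hε1) one_pos
  have hεle0 : ε ≤ ε0 := (min_le_left _ _).trans (min_le_left _ _)
  have hεle1 : ε ≤ ε1 := (min_le_left _ _).trans (min_le_right _ _)
  have hεle : ε ≤ 1 := min_le_right _ _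
  set s0 : ℂ := ((1 - ε : ℝ) : ℂ) + T * I with hs0
  set s1 : ℂ := ((1 - ε : ℝ) : ℂ) + ((T + H : ℝ) : ℂ) * I with hs1
  have hs0re : s0.re = 1 - ε := by simp [hs0]
  have hs0im : s0.im = T := by simp [hs0]
  have hs1re : s1.re = 1 - ε := by simp [hs1]
  have hs1im : s1.im = T + H := by simp [hs1]
  set f : ℂ → ℂ := fun s => exp (g θ s - (V + 1 / 2 : ℝ) - (2 * C : ℝ) * (1 / (s - s0)) -
    (2 * C : ℝ) * (1 / (s - s1))) with hf
  set U : Set ℂ := Ioo (1 : ℝ) 3 ×ℂ Ioo T (T + H) with hU
  have hclU : closure U = Icc (1 : ℝ) 3 ×ℂ Icc T (T + H) := by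
    rw [hU, closure_reProdIm, closure_Ioo (by norm_num), closure_Ioo (by linarith)]
  have hnormf : ∀ s, ‖f s‖ = Real.exp ((g θ s).re - (V + 1 / 2) - 2 * C * (1 / (s - s0)).re -
      2 * C * (1 / (s - s1)).re) := by
    intro s
    rw [hf, Complex.norm_exp]
    congr 1
    simp only [Complex.sub_re, Complex.ofReal_re, Complex.re_ofReal_mul]
  have hdiff : DiffContOnCl ℂ f U := by
    apply DifferentiableOn.diffContOnCl
    rw [hclU]
    intro s hs
    rw [mem_reProdIm] at hs
    apply DifferentiableAt.differentiableWithinAt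
    have hg := g_differentiableAt θ (s := s) hs.1.1 (by linarith [hs.2.1])
    have hne0 : s - s0 ≠ 0 := by
      intro h
      have := congrArg Complex.re h
      rw [Complex.sub_re, hs0re, Complex.zero_re] at this
      linarith [hs.1.1]
    have hne1 : s - s1 ≠ 0 := by
      intro h
      have := congrArg Complex.re h
      rw [Complex.sub_re, hs1re, Complex.zero_re] at this
      linarith [hs.1.1]
    apply DifferentiableAt.cexp
    apply DifferentiableAt.sub
    · apply DifferentiableAt.sub
      · exact hg.sub (differentiableAt_const _)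
      · apply DifferentiableAt.const_mul
        exact (differentiableAt_const _).div (differentiableAt_id.sub (differentiableAt_const _))
          hne0
    · apply DifferentiableAt.const_mul
      exact (differentiableAt_const _).div (differentiableAt_id.sub (differentiableAt_const _))
        hne1
  have hbdd : Bornology.IsBounded U := by
    rw [hU]
    exact (Metric.isBounded_Ioo _ _).reProdIm (Metric.isBounded_Ioo _ _)
  -- the boundary estimate
  have hfr : ∀ s ∈ frontier U, ‖f s‖ ≤ 1 := by
    intro s hs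
    have hscl : s ∈ closure U := frontier_subset_closure hs
    rw [hclU, mem_reProdIm] at hscl
    obtain ⟨⟨hr1, hr3⟩, ⟨hi1, hi2⟩⟩ := hscl
    have hn0 : 0 ≤ (1 / (s - s0)).re := re_inv_nonneg (by
      rw [Complex.sub_re, hs0re]; linarith)
    have hn1 : 0 ≤ (1 / (s - s1)).re := re_inv_nonneg (by
      rw [Complex.sub_re, hs1re]; linarith)
    rw [hnormf, Real.exp_le_one_iff]
    have hgoal : (g θ s).re ≤ V + 1 / 2 + 2 * C * (1 / (s - s0)).re +
        2 * C * (1 / (s - s1)).re := by
      have hCn0 : 0 ≤ 2 * C * (1 / (s - s0)).re := by positivity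
      have hCn1 : 0 ≤ 2 * C * (1 / (s - s1)).re := by positivity
      have hTH : T < T + H := by linarith
      have h13 : (1 : ℝ) < 3 := by norm_num
      rw [hU, frontier_reProdIm, frontier_Ioo hTH, frontier_Ioo h13,
        closure_Ioo h13.ne, closure_Ioo hTH.ne] at hs
      have hhor : ∀ u : ℝ, s.im = u → 0 < u → (∀ x : ℝ, 1 ≤ x → x < 1 + ε →
          (g θ (x + u * I)).re ≤ V + 1 / 2) →
          (g θ s).re ≤ V + 1 / 2 + 2 * C / (s.re - 1 + ε) := by
        intro u hu hu0 hx
        have hsu : s = (s.re : ℂ) + u * I := by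
          rw [← hu]
          exact (Complex.re_add_im s).symm
        rcases lt_or_ge s.re (1 + ε) with hlt | hge
        · have := hx s.re hr1 hlt
          rw [← hsu] at this
          have h2 : 0 ≤ 2 * C / (s.re - 1 + ε) := by
            apply div_nonneg (by positivity)
            linarith
          linarith
        · have h1 : (g θ s).re ≤ C / (s.re - 1) := by
            refine (Complex.re_le_norm _).trans ?_
            rw [norm_g]
            exact (norm_logDeriv_le (by linarith)).trans (hC _ (by linarith) hr3)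
          have h2 : C / (s.re - 1) ≤ 2 * C / (s.re - 1 + ε) := by
            rw [div_le_div_iff₀ (by linarith) (by linarith)]
            nlinarith
          linarith
      rcases hs with hs | hs
      · rw [mem_reProdIm] at hs
        rcases hs.2 with him | him
        · -- bottom
          have h1 := hhor T him hT (fun x hx1 hx2 =>
            (hc0 x hx1 (by linarith)).trans (by linarith [hline T le_rfl (by linarith)]))
          have h2 : (1 / (s - s0)).re = 1 / (s.re - 1 + ε) := by
            have : s - s0 = ((s.re - 1 + ε : ℝ) : ℂ) := by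
              apply Complex.ext
              · rw [Complex.sub_re, hs0re, Complex.ofReal_re]; ring
              · rw [Complex.sub_im, hs0im, Complex.ofReal_im, him]; ring
            rw [this, ← Complex.ofReal_one, ← Complex.ofReal_div, Complex.ofReal_re]
          rw [h2]
          have h3 : 2 * C * (1 / (s.re - 1 + ε)) = 2 * C / (s.re - 1 + ε) := by ring
          rw [h3]
          linarith
        · -- top
          have him' : s.im = T + H := him
          have hx1 : ∀ x : ℝ, 1 ≤ x → x < 1 + ε →
              (g θ (x + ((T + H : ℝ) : ℂ) * I)).re ≤ V + 1 / 2 := fun x hx1 hx2 =>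
            (hc1 x hx1 (by linarith)).trans (by
              linarith [hline (T + H) (by linarith) le_rfl])
          have h1 := hhor (T + H) him' (by linarith) hx1
          have h2 : (1 / (s - s1)).re = 1 / (s.re - 1 + ε) := by
            have : s - s1 = ((s.re - 1 + ε : ℝ) : ℂ) := by
              apply Complex.ext
              · rw [Complex.sub_re, hs1re, Complex.ofReal_re]; ring
              · rw [Complex.sub_im, hs1im, Complex.ofReal_im, him']; ring
            rw [this, ← Complex.ofReal_one, ← Complex.ofReal_div, Complex.ofReal_re]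
          rw [h2]
          have h3 : 2 * C * (1 / (s.re - 1 + ε)) = 2 * C / (s.re - 1 + ε) := by ring
          rw [h3]
          linarith
      · rw [mem_reProdIm] at hs
        rcases hs.1 with hre | hre
        · -- left edge
          have hsu : s = 1 + s.im * I := by
            have := (Complex.re_add_im s).symm
            rw [hre] at this
            simpa using this
          have := hline s.im hi1 hi2
          rw [← hsu] at this
          linarith
        · -- right edge
          have hre' : s.re = 3 := hre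
          have h1 : (g θ s).re ≤ C / 2 := by
            refine (Complex.re_le_norm _).trans ?_
            rw [norm_g]
            refine (norm_logDeriv_le (by linarith)).trans ?_
            have := hC s.re (by linarith) hr3
            rw [hre'] at this ⊢
            norm_num at this ⊢
            exact this
          linarith
    linarith
  have hz : ((σ : ℂ) + t * I) ∈ closure U := by
    rw [hclU, mem_reProdIm]
    constructor
    · constructor <;> simp <;> linarith
    · constructor <;> simp <;> linarith
  have hfin := Complex.norm_le_of_forall_mem_frontier_norm_le hbdd hdiff hfr hz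
  rw [hnormf, Real.exp_le_one_iff] at hfin
  have hq : 0 < H / 4 := by linarith
  have hre0 : ((σ : ℂ) + t * I - s0).re = σ - 1 + ε := by
    rw [Complex.sub_re, hs0re]; simp; ring
  have hre1 : ((σ : ℂ) + t * I - s1).re = σ - 1 + ε := by
    rw [Complex.sub_re, hs1re]; simp; ring
  have him0 : H / 4 ≤ |((σ : ℂ) + t * I - s0).im| := by
    rw [Complex.sub_im, hs0im]
    simp only [Complex.add_im, Complex.ofReal_im, Complex.mul_im, Complex.ofReal_re, Complex.I_im,
      Complex.I_re, mul_one, mul_zero, add_zero, zero_add]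
    rw [abs_of_nonneg (by linarith)]
    linarith
  have him1 : H / 4 ≤ |((σ : ℂ) + t * I - s1).im| := by
    rw [Complex.sub_im, hs1im]
    simp only [Complex.add_im, Complex.ofReal_im, Complex.mul_im, Complex.ofReal_re, Complex.I_im,
      Complex.I_re, mul_one, mul_zero, add_zero, zero_add]
    rw [abs_of_nonpos (by linarith)]
    linarith
  have hb0 := re_inv_le (z := (σ : ℂ) + t * I - s0) (by rw [hre0]; linarith) hq him0
  have hb1 := re_inv_le (z := (σ : ℂ) + t * I - s1) (by rw [hre1]; linarith) hq him1
  rw [hre0] at hb0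
  rw [hre1] at hb1
  have hb2 : (σ - 1 + ε) / (H / 4) ^ 2 ≤ 3 / (H / 4) ^ 2 := by
    apply div_le_div_of_nonneg_right _ (by positivity)
    linarith
  have hb3 : 2 * C * (3 / (H / 4) ^ 2) ≤ 1 / 4 := by
    have : 2 * C * (3 / (H / 4) ^ 2) = 96 * C / H ^ 2 := by
      field_simp
      ring
    rw [this, div_le_iff₀ (by positivity)]
    linarith
  have hb4 : 2 * C * (1 / ((σ : ℂ) + t * I - s0)).re ≤ 1 / 4 :=
    (mul_le_mul_of_nonneg_left (hb0.trans hb2) (by positivity)).trans hb3
  have hb5 : 2 * C * (1 / ((σ : ℂ) + t * I - s1)).re ≤ 1 / 4 :=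
    (mul_le_mul_of_nonneg_left (hb1.trans hb2) (by positivity)).trans hb3
  linarith

end MP774a5f
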