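import Pool.Agent.Lib.MP_774a5f_nt.MeanValue
import Pool.Agent.Lib.MP_774a5f_nt.Transfer

/-!
# The weighted inequality
-/

namespace MP774a5f

open Complex ArithmeticFunction Filter Topology Set MeasureTheory
open scoped ComplexConjugate

theorem nonprime_bound : ∃ C2 : ℝ, 0 ≤ C2 ∧ ∀ (F : Finset ℕ) (σ : ℝ), 1 ≤ σ →
    ∑ n ∈ F.filter (fun n => ¬ n.Prime), Λ n / (n : ℝ) ^ σ ≤ C2 := by
  have h := vonMangoldt.summable_residueClass_non_primes_div (q := 1) (1 : ZMod 1)
  have hres : ∀ n : ℕ, vonMangoldt.residueClass (1 : ZMod 1) n = Λ n := by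
    intro n
    have : (n : ZMod 1) = 1 := Subsingleton.elim _ _
    simp only [vonMangoldt.residueClass, Set.indicator_apply, Set.mem_ofPred_eq, this, if_true]
  simp only [hres] at h
  have hnn : ∀ n : ℕ, 0 ≤ (if n.Prime then 0 else Λ n) / (n : ℝ) := by
    intro n
    apply div_nonneg _ n.cast_nonneg
    split_ifs
    · exact le_rfl
    · exact vonMangoldt_nonneg
  refine ⟨∑' n : ℕ, (if n.Prime then 0 else Λ n) / (n : ℝ), tsum_nonneg hnn, ?_⟩
  intro F σ hσ
  calc ∑ n ∈ F.filter (fun n => ¬ n.Prime), Λ n / (n : ℝ) ^ σ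
      ≤ ∑ n ∈ F.filter (fun n => ¬ n.Prime), (if n.Prime then 0 else Λ n) / (n : ℝ) := by
        apply Finset.sum_le_sum
        intro n hn
        rw [if_neg (Finset.mem_filter.1 hn).2]
        rcases Nat.eq_zero_or_pos n with rfl | hpos
        · simp
        · have h1 : (1 : ℝ) ≤ n := by exact_mod_cast hpos
          apply div_le_div_of_nonneg_left vonMangoldt_nonneg (by linarith)
          calc (n : ℝ) = (n : ℝ) ^ (1 : ℝ) := (Real.rpow_one _).symm
            _ ≤ (n : ℝ) ^ σ := Real.rpow_le_rpow_of_exponent_le h1 hσ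
    _ ≤ _ := h.sum_le_tsum _ (fun n _ => hnn n)

theorem term_eq (σ t : ℝ) {n : ℕ} (hn : n ≠ 0) :
    LSeries.term (fun n => (Λ n : ℂ)) (σ + t * I) n =
      ((Λ n / (n : ℝ) ^ σ : ℝ) : ℂ) * conj (ph t n) := by
  rw [LSeries.term_of_ne_zero hn]
  have hn' : (n : ℂ) ≠ 0 := by exact_mod_cast hn
  have hnpos : (0 : ℝ) < n := by exact_mod_cast Nat.pos_of_ne_zero hn
  rw [Complex.cpow_add _ _ hn', Complex.ofReal_div, Complex.ofReal_cpow hnpos.le,
    Complex.ofReal_natCast, div_mul_eq_div_div]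
  rw [div_eq_mul_inv (_ / _) _]
  congr 1
  rw [Complex.cpow_def_of_ne_zero hn', ← Complex.exp_neg]
  unfold ph
  rw [← Complex.exp_conj]
  congr 1
  simp only [map_mul, Complex.conj_ofReal, Complex.conj_I]
  rw [← Complex.ofReal_natCast, ← Complex.ofReal_log hnpos.le]
  push_cast
  ring

theorem weighted {C2 : ℝ} (hC2 : ∀ (F : Finset ℕ) (σ : ℝ), 1 ≤ σ →
    ∑ n ∈ F.filter (fun n => ¬ n.Prime), Λ n / (n : ℝ) ^ σ ≤ C2)
    {Q : ℕ} (θ σ T1 T2 V : ℝ) (hσ : 1 < σ) (hT : T1 ≤ T2)
    (hV : ∀ t : ℝ, T1 ≤ t → t ≤ T2 → (g θ (σ + t * I)).re ≤ V) (hV0 : 0 ≤ V) (F : Finset ℕ)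
    (hF : absSeries σ - ∑ n ∈ F, Λ n / (n : ℝ) ^ σ ≤ 1) :
    (T2 - T1) * ((∑ p ∈ F.filter Nat.Prime, Λ p / (p : ℝ) ^ σ * W Q p) -
      C2 * (Q.divisors.card : ℝ)) - 4 * Q * (Q.divisors.card : ℝ) ^ 2 * absSeries σ ≤
    (V + 1) * ((T2 - T1) * (Q.divisors.card : ℝ) + 4 * Q * (Q.divisors.card : ℝ) ^ 2) := by
  set τ : ℝ := (Q.divisors.card : ℝ) with hτ
  have hτ0 : 0 ≤ τ := by positivity
  set c : ℕ → ℝ := fun n => Λ n / (n : ℝ) ^ σ with hc
  have hc0 : ∀ n, 0 ≤ c n := fun n => div_nonneg vonMangoldt_nonneg (by positivity)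
  set z : ℂ := -exp ((θ : ℂ) * I) with hz
  have hz1 : ‖z‖ = 1 := by rw [hz, norm_neg, Complex.norm_exp_ofReal_mul_I]
  set w : ℂ := -exp (-(θ : ℂ) * I) with hw
  have hw1 : ‖w‖ = 1 := by rw [hw, norm_neg, norm_rot]
  have hwz : w * z = 1 := by
    rw [hw, hz, neg_mul_neg, ← Complex.exp_add]
    have : -(θ : ℂ) * I + (θ : ℂ) * I = 0 := by ring
    rw [this, Complex.exp_zero]
  set Rt : ℝ → ℂ := R Q z with hRt
  have hRc : Continuous Rt := continuous_R Q z
  set In : ℕ → ℂ := fun n => ∫ t in T1..T2, conj (ph t n) * (Rt t * conj (Rt t)) with hIn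
  have hcontn : ∀ n : ℕ, Continuous fun t : ℝ => conj (ph t n) * (Rt t * conj (Rt t)) := fun n =>
    (Complex.continuous_conj.comp (continuous_ph n)).mul
      (hRc.mul (Complex.continuous_conj.comp hRc))
  -- the polynomial
  set S : ℝ → ℂ := fun t => ∑ n ∈ F, (c n : ℂ) * conj (ph t n) with hS
  have hSc : Continuous S := by
    rw [hS]
    apply continuous_finsetSum
    intro n _
    exact continuous_const.mul (Complex.continuous_conj.comp (continuous_ph n))
  have hSterm : ∀ t, S t = ∑ n ∈ F, LSeries.term (fun n => (Λ n : ℂ)) (σ + t * I) n := by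
    intro t
    rw [hS]
    apply Finset.sum_congr rfl
    intro n _
    rcases eq_or_ne n 0 with rfl | hn
    · simp [hc]
    · rw [term_eq σ t hn]
  have hG : ∀ t : ℝ, T1 ≤ t → t ≤ T2 → (w * S t).re ≤ V + 1 := by
    intro t h1 h2
    have hre : ((σ : ℂ) + t * I).re = σ := by simp
    have h3 := norm_logDeriv_add_sum_le (s := (σ : ℂ) + t * I) (by rw [hre]; exact hσ) F
    rw [hre, ← hSterm t] at h3
    have h4 : w * S t = g θ (σ + t * I) + w * (deriv riemannZeta (σ + t * I) /
        riemannZeta (σ + t * I) + S t) := by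
      unfold g
      rw [hw]
      ring
    rw [h4, Complex.add_re]
    have h5 : (w * (deriv riemannZeta (σ + t * I) / riemannZeta (σ + t * I) + S t)).re ≤ 1 := by
      refine (Complex.re_le_norm _).trans ?_
      rw [norm_mul, hw1, one_mul]
      exact h3.trans hF
    linarith [hV t h1 h2]
  -- integrals
  have hint1 : ∫ t in T1..T2, (w * S t) * (Rt t * conj (Rt t)) = ∑ n ∈ F, w * ((c n : ℂ) * In n) := by
    have : ∀ t, (w * S t) * (Rt t * conj (Rt t)) =
        ∑ n ∈ F, (w * (c n : ℂ)) * (conj (ph t n) * (Rt t * conj (Rt t))) := by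
      intro t
      rw [hS]
      simp only
      rw [Finset.mul_sum, Finset.sum_mul]
      apply Finset.sum_congr rfl
      intro n _
      ring
    simp_rw [this]
    rw [intervalIntegral.integral_finsetSum]
    · apply Finset.sum_congr rfl
      intro n _
      rw [intervalIntegral.integral_const_mul, hIn]
      ring
    · intro n _
      exact (continuous_const.mul (hcontn n)).intervalIntegrable _ _
  have hRR : ∀ t, Rt t * conj (Rt t) = ((Complex.normSq (Rt t) : ℝ) : ℂ) := fun t =>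
    Complex.mul_conj _
  have hnsc : Continuous fun t => Complex.normSq (Rt t) := Complex.continuous_normSq.comp hRc
  have hre1 : (∑ n ∈ F, w * ((c n : ℂ) * In n)).re =
      ∫ t in T1..T2, (w * S t).re * Complex.normSq (Rt t) := by
    rw [← hint1]
    have hcc : Continuous fun t => (w * S t) * (Rt t * conj (Rt t)) :=
      (continuous_const.mul hSc).mul (hRc.mul (Complex.continuous_conj.comp hRc))
    have := Complex.reCLM.intervalIntegral_comp_comm (hcc.intervalIntegrable (μ := volume) T1 T2)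
    simp only [Complex.reCLM_apply] at this
    rw [← this]
    apply intervalIntegral.integral_congr
    intro t _
    simp only
    rw [hRR, Complex.re_mul_ofReal]
  have hupper : (∑ n ∈ F, w * ((c n : ℂ) * In n)).re ≤
      (V + 1) * ∫ t in T1..T2, Complex.normSq (Rt t) := by
    rw [hre1, ← intervalIntegral.integral_const_mul]
    apply intervalIntegral.integral_mono_on hT
    · exact ((Complex.continuous_re.comp (continuous_const.mul hSc)).mul hnsc).intervalIntegrable
        _ _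
    · exact (continuous_const.mul hnsc).intervalIntegrable _ _
    · intro t ht
      exact mul_le_mul_of_nonneg_right (hG t ht.1 ht.2) (Complex.normSq_nonneg _)
  -- the mean square
  have hmv : ∀ n : ℕ, 0 < n → ‖In n - ((T2 - T1 : ℝ) : ℂ) * (z ^ (cardFactors n) * W Q n)‖ ≤
      4 * Q * τ ^ 2 := fun n hn => mean_value hn hz1 T1 T2
  have hsq : ∫ t in T1..T2, Complex.normSq (Rt t) ≤ (T2 - T1) * τ + 4 * Q * τ ^ 2 := by
    have h1 := hmv 1 one_pos
    have h2 : In 1 = ((∫ t in T1..T2, Complex.normSq (Rt t) : ℝ) : ℂ) := by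
      rw [hIn]
      simp only
      rw [← intervalIntegral.integral_ofReal]
      apply intervalIntegral.integral_congr
      intro t _
      simp only
      rw [hRR]
      unfold ph
      simp
    have hW1 : W Q 1 = Q.divisors.card := by
      unfold W
      congr 1
      rw [Finset.filter_eq_self]
      intro b hb
      rwa [mul_one]
    rw [h2, hW1] at h1
    simp only [cardFactors_one, pow_zero, one_mul] at h1
    have h3 : ((∫ t in T1..T2, Complex.normSq (Rt t) : ℝ) : ℂ) -
        ((T2 - T1 : ℝ) : ℂ) * ((Q.divisors.card : ℕ) : ℂ) =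
        (((∫ t in T1..T2, Complex.normSq (Rt t)) - (T2 - T1) * τ : ℝ) : ℂ) := by
      rw [hτ]; push_cast; ring
    rw [h3, Complex.norm_real, Real.norm_eq_abs] at h1
    linarith [(abs_le.1 h1).2]
  -- the lower bound
  have hlow : ∀ n ∈ F, c n * ((T2 - T1) * (if n.Prime then (W Q n : ℝ) else -τ) - 4 * Q * τ ^ 2) ≤
      (w * ((c n : ℂ) * In n)).re := by
    intro n _
    rcases Nat.eq_zero_or_pos n with rfl | hpos
    · simp [hc]
    · have e1 : (w * ((c n : ℂ) * In n)).re = c n * (w * In n).re := by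
        have : w * ((c n : ℂ) * In n) = (c n : ℂ) * (w * In n) := by ring
        rw [this, Complex.re_ofReal_mul]
      rw [e1]
      apply mul_le_mul_of_nonneg_left _ (hc0 n)
      have e2 : w * In n = w * (((T2 - T1 : ℝ) : ℂ) * (z ^ (cardFactors n) * W Q n)) +
          w * (In n - ((T2 - T1 : ℝ) : ℂ) * (z ^ (cardFactors n) * W Q n)) := by ring
      rw [e2, Complex.add_re]
      have e3 : -(4 * Q * τ ^ 2) ≤
          (w * (In n - ((T2 - T1 : ℝ) : ℂ) * (z ^ (cardFactors n) * W Q n))).re := by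
        have h1 := Complex.abs_re_le_norm
          (w * (In n - ((T2 - T1 : ℝ) : ℂ) * (z ^ (cardFactors n) * W Q n)))
        rw [norm_mul, hw1, one_mul] at h1
        exact (abs_le.1 (h1.trans (hmv n hpos))).1
      have e4 : (T2 - T1) * (if n.Prime then (W Q n : ℝ) else -τ) ≤
          (w * (((T2 - T1 : ℝ) : ℂ) * (z ^ (cardFactors n) * W Q n))).re := by
        have : w * (((T2 - T1 : ℝ) : ℂ) * (z ^ (cardFactors n) * W Q n)) =
            ((T2 - T1 : ℝ) : ℂ) * (((W Q n : ℝ) : ℂ) * (w * z ^ (cardFactors n))) := by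
          push_cast; ring
        rw [this, Complex.re_ofReal_mul, Complex.re_ofReal_mul]
        apply mul_le_mul_of_nonneg_left _ (by linarith)
        split_ifs with hp
        · rw [cardFactors_apply_prime hp, pow_one, hwz, Complex.one_re, mul_one]
        · have h1 := Complex.abs_re_le_norm (w * z ^ (cardFactors n))
          rw [norm_mul, norm_pow, hw1, hz1, one_pow, one_mul] at h1
          have h2 := (abs_le.1 h1).1
          have h3 : (W Q n : ℝ) ≤ τ := by
            rw [hτ]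
            exact_mod_cast W_le Q n
          have h4 : (0 : ℝ) ≤ W Q n := Nat.cast_nonneg _
          nlinarith
      linarith
  have hsum : ∑ n ∈ F, c n * ((T2 - T1) * (if n.Prime then (W Q n : ℝ) else -τ) - 4 * Q * τ ^ 2) ≤
      (∑ n ∈ F, w * ((c n : ℂ) * In n)).re := by
    rw [Complex.re_sum]
    exact Finset.sum_le_sum hlow
  have hsplit : ∑ n ∈ F, c n * ((T2 - T1) * (if n.Prime then (W Q n : ℝ) else -τ) -
      4 * Q * τ ^ 2) = (T2 - T1) * ((∑ p ∈ F.filter Nat.Prime, c p * W Q p) -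
        τ * ∑ n ∈ F.filter (fun n => ¬ n.Prime), c n) - 4 * Q * τ ^ 2 * ∑ n ∈ F, c n := by
    have h1 : ∑ n ∈ F, c n * ((T2 - T1) * (if n.Prime then (W Q n : ℝ) else -τ) -
      4 * Q * τ ^ 2) = (T2 - T1) * ∑ n ∈ F, c n * (if n.Prime then (W Q n : ℝ) else -τ) -
        4 * Q * τ ^ 2 * ∑ n ∈ F, c n := by
      rw [Finset.mul_sum, Finset.mul_sum, ← Finset.sum_sub_distrib]
      apply Finset.sum_congr rfl
      intro n _
      ring
    rw [h1]
    congr 2
    rw [← Finset.sum_filter_add_sum_filter_not F Nat.Prime]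
    have h2 : ∑ n ∈ F.filter Nat.Prime, c n * (if n.Prime then (W Q n : ℝ) else -τ) =
        ∑ p ∈ F.filter Nat.Prime, c p * W Q p := by
      apply Finset.sum_congr rfl
      intro n hn
      rw [if_pos (Finset.mem_filter.1 hn).2]
    have h3 : ∑ n ∈ F.filter (fun n => ¬ n.Prime), c n * (if n.Prime then (W Q n : ℝ) else -τ) =
        -(τ * ∑ n ∈ F.filter (fun n => ¬ n.Prime), c n) := by
      rw [Finset.mul_sum, ← Finset.sum_neg_distrib]
      apply Finset.sum_congr rfl
      intro n hn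
      rw [if_neg (Finset.mem_filter.1 hn).2]
      ring
    rw [h2, h3]
    ring
  rw [hsplit] at hsum
  have hnp := hC2 F σ hσ.le
  have habs : ∑ n ∈ F, c n ≤ absSeries σ :=
    (summable_abs hσ).sum_le_tsum _ (fun n _ => hc0 n)
  have hk1 : τ * ∑ n ∈ F.filter (fun n => ¬ n.Prime), c n ≤ C2 * τ := by
    rw [mul_comm C2 τ]
    exact mul_le_mul_of_nonneg_left hnp hτ0
  have hk2 : 4 * Q * τ ^ 2 * ∑ n ∈ F, c n ≤ 4 * Q * τ ^ 2 * absSeries σ :=
    mul_le_mul_of_nonneg_left habs (by positivity)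
  have hk3 : (T2 - T1) * ((∑ p ∈ F.filter Nat.Prime, c p * W Q p) - C2 * τ) ≤
      (T2 - T1) * ((∑ p ∈ F.filter Nat.Prime, c p * W Q p) -
        τ * ∑ n ∈ F.filter (fun n => ¬ n.Prime), c n) :=
    mul_le_mul_of_nonneg_left (by linarith) (by linarith)
  have hk4 : (V + 1) * ∫ t in T1..T2, Complex.normSq (Rt t) ≤
      (V + 1) * ((T2 - T1) * τ + 4 * Q * τ ^ 2) :=
    mul_le_mul_of_nonneg_left hsq (by linarith)
  linarith

end MP774a5f
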