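import Pool.Agent.Lib.MP_774a5f_nt.Weighted
import Pool.Agent.Lib.MP_774a5f_nt.Choice

/-!
# The lower bound in all directions
-/

namespace MP774a5f

open Complex ArithmeticFunction Filter Topology Set

theorem lower : ∃ K H0 : ℝ, 16 ≤ H0 ∧ ∀ T H θ : ℝ, 0 < T → H0 ≤ H →
    ∃ t : ℝ, T ≤ t ∧ t ≤ T + H ∧ Real.log (Real.log H) - K ≤ (g θ (1 + t * I)).re := by
  obtain ⟨C, hC1, H1, hH1, htr⟩ := transfer
  obtain ⟨C3, hC31, hC3⟩ := absSeries_bound
  obtain ⟨C2, hC20, hC2⟩ := nonprime_bound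
  obtain ⟨K1, hK10, hK1⟩ := main_term
  have hl20 : 0 ≤ Real.log 20 := Real.log_nonneg (by norm_num)
  set K : ℝ := K1 + C2 + 4 + Real.log 20 with hK
  have hK0 : 0 ≤ K := by positivity
  -- eventual conditions on `L = log H`
  have ev1 : ∀ᶠ L : ℝ in atTop, Real.log L * (Real.log L + Real.log 4) ≤ L := by
    have h1 := (Real.isLittleO_pow_log_id_atTop (n := 2)).def (show (0 : ℝ) < 1 / 2 by norm_num)
    have h2 := (Real.isLittleO_pow_log_id_atTop (n := 1)).def (show (0 : ℝ) < 1 / 4 by norm_num)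
    filter_upwards [h1, h2, eventually_ge_atTop (1 : ℝ)] with L h1 h2 h3
    have hlog : 0 ≤ Real.log L := Real.log_nonneg h3
    rw [Real.norm_of_nonneg (by positivity), id, Real.norm_of_nonneg (by linarith)] at h1 h2
    have h4 : Real.log 4 ≤ 2 := by
      have : Real.log 4 = 2 * Real.log 2 := by
        rw [show (4 : ℝ) = 2 ^ 2 by norm_num, Real.log_pow]
        norm_num
      rw [this]
      have := Real.log_two_lt_d9
      linarith
    nlinarith
  have ev2 : ∀ᶠ L : ℝ in atTop, C + K ≤ Real.log L := Real.tendsto_log_atTop.eventually_ge_atTop _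
  obtain ⟨L0, hL0⟩ := (ev1.and ev2).exists_forall_of_atTop
  set L1 : ℝ := max (max L0 20) (100 * (C3 + 3)) with hL1
  refine ⟨K, max (max H1 16) (Real.exp L1), (le_max_right _ _).trans (le_max_left _ _), ?_⟩
  intro T H θ hT hH
  have hHH1 : H1 ≤ H := ((le_max_left _ _).trans (le_max_left _ _)).trans hH
  have hH16 : 16 ≤ H := ((le_max_right _ _).trans (le_max_left _ _)).trans hH
  have hHexp : Real.exp L1 ≤ H := (le_max_right _ _).trans hH
  have hHpos : 0 < H := by linarith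
  set L : ℝ := Real.log H with hL
  have hLL1 : L1 ≤ L := by
    rw [hL]
    exact (Real.le_log_iff_exp_le hHpos).2 hHexp
  have hLL0 : L0 ≤ L := ((le_max_left _ _).trans (le_max_left _ _)).trans hLL1
  have hL20 : 20 ≤ L := ((le_max_right _ _).trans (le_max_left _ _)).trans hLL1
  have hLC3 : 100 * (C3 + 3) ≤ L := (le_max_right _ _).trans hLL1
  obtain ⟨hc1, hc2⟩ := hL0 L hLL0
  by_contra hcon
  push Not at hcon
  set V : ℝ := Real.log L - K with hV
  have hVC : C ≤ V := by linarith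
  have hline : ∀ t : ℝ, T ≤ t → t ≤ T + H → (g θ (1 + t * I)).re ≤ V := fun t h1 h2 =>
    (hcon t h1 h2).le
  -- the parameters
  set y : ℕ := ⌊L / 10⌋₊ with hy
  have hy1 : (y : ℝ) ≤ L / 10 := Nat.floor_le (by linarith)
  have hy2 : L / 10 < y + 1 := Nat.lt_floor_add_one _
  have hy3 : L / 20 ≤ y := by linarith
  have hyge : (1 : ℝ) ≤ y := by linarith
  have hyge' : 1 ≤ y := by exact_mod_cast hyge
  set δ : ℝ := 1 / L with hδ
  have hLpos : 0 < L := by linarith
  have hδ0 : 0 < δ := by positivity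
  have hly0 : 0 ≤ Real.log y := Real.log_nonneg hyge
  have hl4 : 0 ≤ Real.log 4 := Real.log_nonneg (by norm_num)
  have hlyL : Real.log y ≤ Real.log L := Real.log_le_log (by linarith) (by linarith)
  have hδy : δ * (Real.log y * (Real.log y + Real.log 4)) ≤ 1 := by
    rw [hδ, div_mul_eq_mul_div, one_mul, div_le_one hLpos]
    refine le_trans ?_ hc1
    apply mul_le_mul hlyL (by linarith) (by linarith) (by linarith)
  have hmt := hK1 y hyge' δ hδ0.le hδy
  set σ : ℝ := 1 + δ with hσ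
  have hσ1 : 1 < σ := by linarith
  have hδ1 : δ ≤ 1 := by
    rw [hδ, div_le_one hLpos]
    linarith
  have hσ3 : σ ≤ 3 := by linarith
  have habs : absSeries σ ≤ C3 * L := by
    have := hC3 σ hσ1 hσ3
    have e : C3 / (σ - 1) = C3 * L := by
      rw [hσ, hδ]
      field_simp
      ring
    linarith
  -- the finite set
  have hsum := (summable_abs hσ1).hasSum.tendsto_sum_nat
  have hev : ∀ᶠ N : ℕ in atTop, absSeries σ - 1 < ∑ n ∈ Finset.range N, Λ n / (n : ℝ) ^ σ :=
    hsum.eventually_const_lt (by unfold absSeries; linarith)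
  obtain ⟨N, hN1, hN2⟩ := (hev.and (eventually_ge_atTop (y + 1))).exists
  set Q : ℕ := QQ y with hQ
  have hQpos : 0 < Q := QQ_pos y
  set τ : ℝ := (Q.divisors.card : ℝ) with hτ
  have hτpos : 0 < τ := by
    rw [hτ]
    exact_mod_cast Finset.card_pos.2 ⟨1, Nat.one_mem_divisors.2 hQpos.ne'⟩
  have hw := weighted hC2 (Q := Q) θ σ (T + H / 4) (T + 3 * H / 4) (V + 1) hσ1 (by linarith)
    (fun t h1 h2 => htr T H hT hHH1 θ V hVC hline σ t hσ1 hσ3 h1 h2) (by linarith)
    (Finset.range N) (by linarith)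
  have hT21 : T + 3 * H / 4 - (T + H / 4) = H / 2 := by ring
  rw [hT21] at hw
  have hsub : ∑ p ∈ Pr y, Λ p / (p : ℝ) ^ σ * W Q p ≤
      ∑ p ∈ (Finset.range N).filter Nat.Prime, Λ p / (p : ℝ) ^ σ * W Q p := by
    apply Finset.sum_le_sum_of_subset_of_nonneg
    · intro p hp
      unfold Pr at hp
      rw [Finset.mem_filter, Finset.mem_Icc] at hp
      rw [Finset.mem_filter, Finset.mem_range]
      exact ⟨by omega, hp.2⟩
    · intro p _ _
      exact mul_nonneg (div_nonneg vonMangoldt_nonneg (by positivity)) (Nat.cast_nonneg _)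
  have hmain : τ * (Real.log y - K1) ≤
      ∑ p ∈ (Finset.range N).filter Nat.Prime, Λ p / (p : ℝ) ^ σ * W Q p := hmt.trans hsub
  -- sizes
  have hτQ : τ ≤ Q := by
    rw [hτ]
    exact_mod_cast Nat.card_divisors_le_self Q
  have hQ1 : (1 : ℝ) ≤ Q := by exact_mod_cast hQpos
  have hQsq : (Q : ℝ) * Q ≤ Real.exp (3 / 5 * L) := by
    have h1 := log_QQ y
    have h4 : Real.log 4 ≤ 1.4 := by
      have : Real.log 4 = 2 * Real.log 2 := by
        rw [show (4 : ℝ) = 2 ^ 2 by norm_num, Real.log_pow]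
        norm_num
      rw [this]
      have := Real.log_two_lt_d9
      linarith
    have h2 : Real.log Q ≤ 3 / 10 * L := by
      rw [hQ]
      calc Real.log (QQ y) ≤ 2 * Real.log 4 * y := h1
        _ ≤ 2 * 1.4 * (L / 10) := by
            apply mul_le_mul (by linarith) hy1 (by positivity) (by norm_num)
        _ ≤ 3 / 10 * L := by linarith
    have h3 : (Q : ℝ) ≤ Real.exp (3 / 10 * L) := (Real.log_le_iff_le_exp (by linarith)).1 h2
    calc (Q : ℝ) * Q ≤ Real.exp (3 / 10 * L) * Real.exp (3 / 10 * L) :=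
          mul_le_mul h3 h3 (by linarith) (Real.exp_pos _).le
      _ = Real.exp (3 / 5 * L) := by rw [← Real.exp_add]; ring_nf
  have hHexpL : H = Real.exp L := by rw [hL, Real.exp_log hHpos]
  have hVL : V + 2 ≤ 2 * L := by
    have : Real.log L ≤ L - 1 := Real.log_le_sub_one_of_pos hLpos
    linarith
  have hsmall : 8 * ((Q : ℝ) * τ) * (C3 * L + (V + 2)) ≤ H := by
    have h1 : (Q : ℝ) * τ ≤ Real.exp (3 / 5 * L) :=
      (mul_le_mul_of_nonneg_left hτQ (by linarith)).trans hQsq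
    have h2 : C3 * L + (V + 2) ≤ (C3 + 2) * L := by linarith
    have h3 : 8 * ((C3 + 2) * L) ≤ Real.exp (2 / 5 * L) := by
      have h4 := Real.quadratic_le_exp_of_nonneg (show 0 ≤ 2 / 5 * L by linarith)
      have h5 : 100 * (C3 + 2) ≤ L := by linarith
      nlinarith
    have h6 : 0 ≤ C3 * L + (V + 2) := by
      have : 0 ≤ C3 * L := by positivity
      linarith
    calc 8 * ((Q : ℝ) * τ) * (C3 * L + (V + 2))
        = ((Q : ℝ) * τ) * (8 * (C3 * L + (V + 2))) := by ring
      _ ≤ Real.exp (3 / 5 * L) * (8 * ((C3 + 2) * L)) := by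
          apply mul_le_mul h1 (by linarith) (by linarith) (Real.exp_pos _).le
      _ ≤ Real.exp (3 / 5 * L) * Real.exp (2 / 5 * L) :=
          mul_le_mul_of_nonneg_left h3 (Real.exp_pos _).le
      _ = Real.exp L := by rw [← Real.exp_add]; ring_nf
      _ = H := hHexpL.symm
  have hlogy : Real.log L - Real.log 20 ≤ Real.log y := by
    rw [← Real.log_div (by linarith) (by norm_num)]
    exact Real.log_le_log (by linarith) hy3
  -- conclusion
  have h4Q : 0 ≤ 4 * (Q : ℝ) * τ ^ 2 :=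
    mul_nonneg (mul_nonneg (by norm_num) (by linarith)) (sq_nonneg τ)
  have hA : 4 * Q * τ ^ 2 * absSeries σ ≤ 4 * Q * τ ^ 2 * (C3 * L) :=
    mul_le_mul_of_nonneg_left habs h4Q
  have hB : H / 2 * (τ * (Real.log y - K1) - C2 * τ) ≤
      H / 2 * ((∑ p ∈ (Finset.range N).filter Nat.Prime, Λ p / (p : ℝ) ^ σ * W Q p) - C2 * τ) :=
    mul_le_mul_of_nonneg_left (by linarith) (by linarith)
  have hC' : H / 2 * (τ * (Real.log y - K1) - C2 * τ) ≤
      (V + 2) * (H / 2 * τ) + 4 * Q * τ ^ 2 * (C3 * L + (V + 2)) := by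
    have e : (V + 1 + 1) * (H / 2 * τ + 4 * Q * τ ^ 2) =
        (V + 2) * (H / 2 * τ) + 4 * Q * τ ^ 2 * (V + 2) := by ring
    rw [e] at hw
    have e2 : 4 * Q * τ ^ 2 * (C3 * L + (V + 2)) = 4 * Q * τ ^ 2 * (C3 * L) +
        4 * Q * τ ^ 2 * (V + 2) := by ring
    rw [e2]
    linarith
  have hD : 4 * Q * τ ^ 2 * (C3 * L + (V + 2)) ≤ H / 2 * τ := by
    have : 4 * Q * τ ^ 2 * (C3 * L + (V + 2)) =
        (8 * ((Q : ℝ) * τ) * (C3 * L + (V + 2))) * (τ / 2) := by ring
    rw [this]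
    calc (8 * ((Q : ℝ) * τ) * (C3 * L + (V + 2))) * (τ / 2) ≤ H * (τ / 2) :=
          mul_le_mul_of_nonneg_right hsmall (by linarith)
      _ = H / 2 * τ := by ring
  have hE : (H / 2 * τ) * (Real.log y - K1 - C2) ≤ (H / 2 * τ) * (V + 3) := by
    calc (H / 2 * τ) * (Real.log y - K1 - C2) = H / 2 * (τ * (Real.log y - K1) - C2 * τ) := by ring
      _ ≤ _ := hC'
      _ ≤ (V + 2) * (H / 2 * τ) + H / 2 * τ := by linarith
      _ = (H / 2 * τ) * (V + 3) := by ring
  have hF := le_of_mul_le_mul_left hE (mul_pos (by linarith) hτpos)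
  linarith

end MP774a5f
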