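import Pool.Agent.Lib.MP_774a5f_nt.Series

/-!
# Mean values against a short resonator
-/

namespace MP774a5f

open Complex ArithmeticFunction Filter Topology Set MeasureTheory
open scoped ComplexConjugate

/-- `n^{it}`. -/
noncomputable def ph (t : ℝ) (n : ℕ) : ℂ := exp ((t * Real.log n : ℝ) * I)

theorem norm_ph (t : ℝ) (n : ℕ) : ‖ph t n‖ = 1 := Complex.norm_exp_ofReal_mul_I _

theorem ph_mul (t : ℝ) {m n : ℕ} (hm : m ≠ 0) (hn : n ≠ 0) :
    ph t (m * n) = ph t m * ph t n := by
  unfold ph
  rw [← Complex.exp_add]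
  congr 1
  rw [Nat.cast_mul, Real.log_mul (by exact_mod_cast hm) (by exact_mod_cast hn)]
  push_cast
  ring

theorem continuous_ph (n : ℕ) : Continuous fun t : ℝ => ph t n := by
  unfold ph
  fun_prop

theorem ph_mul_conj (t : ℝ) (a m : ℕ) :
    ph t a * conj (ph t m) = exp ((t : ℂ) * (((Real.log a - Real.log m : ℝ) : ℂ) * I)) := by
  unfold ph
  rw [← Complex.exp_conj, ← Complex.exp_add]
  congr 1
  simp only [map_mul, Complex.conj_ofReal, Complex.conj_I]
  push_cast
  ring

theorem integral_off {Q a m : ℕ} (ha : 0 < a) (haQ : a ≤ Q) (hm : 0 < m) (hne : a ≠ m)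
    (T1 T2 : ℝ) : ‖∫ t in T1..T2, ph t a * conj (ph t m)‖ ≤ 4 * Q := by
  simp_rw [ph_mul_conj]
  set c : ℂ := ((Real.log a - Real.log m : ℝ) : ℂ) * I with hc
  have ha' : (0 : ℝ) < a := by exact_mod_cast ha
  have hm' : (0 : ℝ) < m := by exact_mod_cast hm
  have hlow : 1 / (2 * (Q : ℝ)) ≤ |Real.log a - Real.log m| := by
    have hQ : (0 : ℝ) < Q := lt_of_lt_of_le ha' (by exact_mod_cast haQ)
    have haQ' : (a : ℝ) ≤ Q := by exact_mod_cast haQ
    have hQ1 : (1 : ℝ) ≤ Q := by exact_mod_cast (le_trans ha haQ)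
    rcases lt_or_gt_of_ne hne with h | h
    · -- a < m
      have h1 : (a : ℝ) + 1 ≤ m := by exact_mod_cast h
      have h2 : Real.log a - Real.log m ≤ -(1 / ((a : ℝ) + 1)) := by
        have h3 : Real.log (a / (a + 1) : ℝ) ≤ (a / (a + 1) : ℝ) - 1 :=
          Real.log_le_sub_one_of_pos (by positivity)
        rw [Real.log_div (by positivity) (by positivity)] at h3
        have h4 : Real.log ((a : ℝ) + 1) ≤ Real.log m := Real.log_le_log (by positivity) h1
        have h5 : (a / (a + 1) : ℝ) - 1 = -(1 / ((a : ℝ) + 1)) := by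
          field_simp
          ring
        linarith
      have h6 : 1 / (2 * (Q : ℝ)) ≤ 1 / ((a : ℝ) + 1) := by
        apply one_div_le_one_div_of_le (by positivity)
        linarith
      rw [abs_of_nonpos]
      · linarith
      · have : 0 < 1 / ((a : ℝ) + 1) := by positivity
        linarith
    · -- m < a
      have h1 : (m : ℝ) + 1 ≤ a := by exact_mod_cast h
      have h2 : 1 / (a : ℝ) ≤ Real.log a - Real.log m := by
        have h3 : Real.log (m / a : ℝ) ≤ (m / a : ℝ) - 1 :=
          Real.log_le_sub_one_of_pos (by positivity)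
        rw [Real.log_div (by positivity) (by positivity)] at h3
        have h5 : (m / a : ℝ) - 1 ≤ -(1 / (a : ℝ)) := by
          rw [div_sub_one (by positivity), neg_div', div_le_div_iff_of_pos_right ha']
          linarith
        linarith
      have h6 : 1 / (2 * (Q : ℝ)) ≤ 1 / (a : ℝ) := by
        apply one_div_le_one_div_of_le (by positivity)
        linarith
      rw [abs_of_nonneg]
      · linarith
      · have : 0 < 1 / (a : ℝ) := by positivity
        linarith
  have hQ : (0 : ℝ) < Q := lt_of_lt_of_le ha' (by exact_mod_cast haQ)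
  have hcn : ‖c‖ = |Real.log a - Real.log m| := by
    rw [hc, norm_mul, Complex.norm_I, mul_one, Complex.norm_real, Real.norm_eq_abs]
  have hlow0 : 0 < 1 / (2 * (Q : ℝ)) := by positivity
  have hc0 : c ≠ 0 := by
    intro h
    rw [h, norm_zero] at hcn
    linarith
  have hint : ∫ t in T1..T2, exp ((t : ℂ) * c) = (exp (c * T2) - exp (c * T1)) / c := by
    have := integral_exp_mul_complex (a := T1) (b := T2) hc0
    rw [← this]
    apply intervalIntegral.integral_congr
    intro t _
    simp only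
    rw [mul_comm]
  rw [hint, norm_div, hcn]
  have h1 : ∀ T : ℝ, ‖exp (c * T)‖ = 1 := by
    intro T
    have : c * T = (((Real.log a - Real.log m) * T : ℝ) : ℂ) * I := by
      rw [hc]; push_cast; ring
    rw [this, Complex.norm_exp_ofReal_mul_I]
  have h2 : ‖exp (c * T2) - exp (c * T1)‖ ≤ 2 := by
    refine (norm_sub_le _ _).trans ?_
    rw [h1, h1]
    norm_num
  rw [div_le_iff₀ (lt_of_lt_of_le hlow0 hlow)]
  have h3 : 4 * (Q : ℝ) * (1 / (2 * (Q : ℝ))) = 2 := by field_simp; norm_num
  calc ‖exp (c * T2) - exp (c * T1)‖ ≤ 2 := h2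
    _ = 4 * (Q : ℝ) * (1 / (2 * (Q : ℝ))) := h3.symm
    _ ≤ 4 * Q * |Real.log a - Real.log m| := mul_le_mul_of_nonneg_left hlow (by positivity)

theorem integral_diag (a : ℕ) (T1 T2 : ℝ) :
    ∫ t in T1..T2, ph t a * conj (ph t a) = ((T2 - T1 : ℝ) : ℂ) := by
  simp_rw [ph_mul_conj]
  simp

/-- The resonator. -/
noncomputable def R (Q : ℕ) (z : ℂ) (t : ℝ) : ℂ :=
  ∑ a ∈ Q.divisors, z ^ (cardFactors a) * ph t a

/-- `#{b ∣ Q : b n ∣ Q}`. -/
def W (Q n : ℕ) : ℕ := (Q.divisors.filter fun b => b * n ∈ Q.divisors).card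

theorem W_le (Q n : ℕ) : W Q n ≤ Q.divisors.card := Finset.card_filter_le _ _

theorem continuous_R (Q : ℕ) (z : ℂ) : Continuous (R Q z) := by
  unfold R
  apply continuous_finsetSum
  intro a _
  exact continuous_const.mul (continuous_ph a)

theorem mean_value {Q n : ℕ} (hn : 0 < n) {z : ℂ} (hz : ‖z‖ = 1)
    (T1 T2 : ℝ) :
    ‖(∫ t in T1..T2, conj (ph t n) * (R Q z t * conj (R Q z t))) -
      ((T2 - T1 : ℝ) : ℂ) * (z ^ (cardFactors n) * W Q n)‖ ≤
      4 * Q * (Q.divisors.card : ℝ) ^ 2 := by
  have hpos : ∀ a ∈ Q.divisors, 0 < a := fun a ha => Nat.pos_of_mem_divisors ha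
  -- expand
  have hexp : ∀ t : ℝ, conj (ph t n) * (R Q z t * conj (R Q z t)) =
      ∑ a ∈ Q.divisors, ∑ b ∈ Q.divisors,
        (z ^ (cardFactors a) * conj (z ^ (cardFactors b))) * (ph t a * conj (ph t (b * n))) := by
    intro t
    unfold R
    rw [map_sum, Finset.sum_mul_sum, Finset.mul_sum]
    apply Finset.sum_congr rfl
    intro a _
    rw [Finset.mul_sum]
    apply Finset.sum_congr rfl
    intro b hb
    rw [ph_mul t (hpos b hb).ne' hn.ne']
    simp only [map_mul]
    ring
  have hcont : ∀ a m : ℕ, Continuous fun t : ℝ => ph t a * conj (ph t m) := fun a m =>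
    (continuous_ph a).mul (Complex.continuous_conj.comp (continuous_ph m))
  have hint : (∫ t in T1..T2, conj (ph t n) * (R Q z t * conj (R Q z t))) =
      ∑ a ∈ Q.divisors, ∑ b ∈ Q.divisors,
        (z ^ (cardFactors a) * conj (z ^ (cardFactors b))) *
          ∫ t in T1..T2, ph t a * conj (ph t (b * n)) := by
    simp_rw [hexp]
    rw [intervalIntegral.integral_finsetSum]
    · apply Finset.sum_congr rfl
      intro a _
      rw [intervalIntegral.integral_finsetSum]
      · apply Finset.sum_congr rfl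
        intro b _
        rw [intervalIntegral.integral_const_mul]
      · intro b _
        exact (continuous_const.mul (hcont a (b * n))).intervalIntegrable _ _
    · intro a _
      exact (continuous_finsetSum _ fun b _ =>
        continuous_const.mul (hcont a (b * n))).intervalIntegrable _ _
  have hdiag : ((T2 - T1 : ℝ) : ℂ) * (z ^ (cardFactors n) * W Q n) =
      ∑ a ∈ Q.divisors, ∑ b ∈ Q.divisors, if a = b * n then
        (z ^ (cardFactors a) * conj (z ^ (cardFactors b))) * ((T2 - T1 : ℝ) : ℂ) else 0 := by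
    rw [Finset.sum_comm]
    have h1 : ∀ b ∈ Q.divisors, (∑ a ∈ Q.divisors, if a = b * n then
        (z ^ (cardFactors a) * conj (z ^ (cardFactors b))) * ((T2 - T1 : ℝ) : ℂ) else 0) =
        if b * n ∈ Q.divisors then z ^ (cardFactors n) * ((T2 - T1 : ℝ) : ℂ) else 0 := by
      intro b hb
      rw [Finset.sum_ite_eq']
      split_ifs with h
      · congr 1
        rw [cardFactors_mul (hpos b hb).ne' hn.ne', pow_add]
        have hzz : z ^ (cardFactors b) * conj (z ^ (cardFactors b)) = 1 := by
          rw [Complex.mul_conj, Complex.normSq_eq_norm_sq, norm_pow, hz]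
          simp
        calc z ^ (cardFactors b) * z ^ (cardFactors n) * conj (z ^ (cardFactors b))
            = z ^ (cardFactors n) * (z ^ (cardFactors b) * conj (z ^ (cardFactors b))) := by ring
          _ = z ^ (cardFactors n) := by rw [hzz, mul_one]
      · rfl
    rw [Finset.sum_congr rfl h1, ← Finset.sum_filter, Finset.sum_const, nsmul_eq_mul]
    unfold W
    ring
  rw [hint, hdiag, ← Finset.sum_sub_distrib]
  have hterm : ∀ a ∈ Q.divisors, ‖(∑ b ∈ Q.divisors,
        (z ^ (cardFactors a) * conj (z ^ (cardFactors b))) *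
          ∫ t in T1..T2, ph t a * conj (ph t (b * n))) -
        ∑ b ∈ Q.divisors, (if a = b * n then
        (z ^ (cardFactors a) * conj (z ^ (cardFactors b))) * ((T2 - T1 : ℝ) : ℂ) else 0)‖ ≤
        (Q.divisors.card : ℝ) * (4 * Q) := by
    intro a ha
    rw [← Finset.sum_sub_distrib, ← nsmul_eq_mul]
    refine (norm_sum_le_of_le _ (fun b hb => ?_)).trans (le_of_eq (Finset.sum_const _))
    have hzn : ‖z ^ (cardFactors a) * conj (z ^ (cardFactors b))‖ = 1 := by
      rw [norm_mul, RCLike.norm_conj, norm_pow, norm_pow, hz]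
      simp
    split_ifs with h
    · rw [← h, integral_diag, sub_self, norm_zero]
      positivity
    · rw [sub_zero, norm_mul, hzn, one_mul]
      exact integral_off (hpos a ha) (Nat.divisor_le ha)
        (Nat.mul_pos (hpos b hb) hn) h T1 T2
  refine (norm_sum_le_of_le _ hterm).trans (le_of_eq ?_)
  rw [Finset.sum_const, nsmul_eq_mul]
  ring

end MP774a5f
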