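import Mathlib

/-!
# The Dirichlet series of the logarithmic derivative of zeta to the right of the 1-line
-/

namespace MP774a5f

open Complex ArithmeticFunction Filter Topology

/-- The absolute series. -/
noncomputable def absSeries (σ : ℝ) : ℝ := ∑' n : ℕ, Λ n / (n : ℝ) ^ σ

theorem norm_term_vM (n : ℕ) (s : ℂ) :
    ‖LSeries.term (fun n => (Λ n : ℂ)) s n‖ = Λ n / (n : ℝ) ^ s.re := by
  rcases eq_or_ne n 0 with rfl | hn
  · simp
  · rw [LSeries.term_of_ne_zero hn, norm_div, Complex.norm_natCast_cpow_of_pos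
      (Nat.pos_of_ne_zero hn)]
    congr 1
    rw [Complex.norm_real, Real.norm_of_nonneg vonMangoldt_nonneg]

theorem summable_abs {σ : ℝ} (hσ : 1 < σ) : Summable fun n : ℕ => Λ n / (n : ℝ) ^ σ := by
  have h := (LSeriesSummable_vonMangoldt (s := (σ : ℂ)) (by simpa using hσ)).norm
  simp_rw [norm_term_vM] at h
  simpa using h

theorem logDeriv_eq {s : ℂ} (hs : 1 < s.re) :
    deriv riemannZeta s / riemannZeta s = -LSeries (fun n => (Λ n : ℂ)) s := by
  rw [LSeries_vonMangoldt_eq_deriv_riemannZeta_div hs]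
  ring

/-- Approximation by finite sums. -/
theorem norm_logDeriv_add_sum_le {s : ℂ} (hs : 1 < s.re) (F : Finset ℕ) :
    ‖deriv riemannZeta s / riemannZeta s + ∑ n ∈ F, LSeries.term (fun n => (Λ n : ℂ)) s n‖ ≤
      absSeries s.re - ∑ n ∈ F, Λ n / (n : ℝ) ^ s.re := by
  have h1 := LSeriesSummable_vonMangoldt hs
  have h2 := summable_abs hs
  rw [logDeriv_eq hs]
  unfold LSeries absSeries
  have e1 := h1.sum_add_tsum_compl (s := F)
  have e2 := h2.sum_add_tsum_compl (s := F)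
  rw [← e1, ← e2, add_sub_cancel_left]
  have e3 : -(∑ x ∈ F, LSeries.term (fun n => (Λ n : ℂ)) s x +
      ∑' x : ((F : Set ℕ)ᶜ : Set ℕ), LSeries.term (fun n => (Λ n : ℂ)) s x) +
      ∑ x ∈ F, LSeries.term (fun n => (Λ n : ℂ)) s x =
      -∑' x : ((F : Set ℕ)ᶜ : Set ℕ), LSeries.term (fun n => (Λ n : ℂ)) s x := by ring
  rw [e3, norm_neg]
  have h4 : Summable fun x : ((F : Set ℕ)ᶜ : Set ℕ) =>
      ‖LSeries.term (fun n => (Λ n : ℂ)) s x‖ := by
    simp_rw [norm_term_vM]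
    exact h2.subtype _
  refine (norm_tsum_le_tsum_norm h4).trans (le_of_eq ?_)
  simp_rw [norm_term_vM]

theorem norm_logDeriv_le {s : ℂ} (hs : 1 < s.re) :
    ‖deriv riemannZeta s / riemannZeta s‖ ≤ absSeries s.re := by
  simpa using norm_logDeriv_add_sum_le hs ∅

theorem absSeries_bound : ∃ C : ℝ, 1 ≤ C ∧ ∀ σ : ℝ, 1 < σ → σ ≤ 3 →
    absSeries σ ≤ C / (σ - 1) := by
  have hcont := vonMangoldt.continuousOn_LFunctionResidueClassAux (q := 1) (1 : ZMod 1)
  have hK : IsCompact ((fun x : ℝ => (x : ℂ)) '' Set.Icc (1 : ℝ) 3) :=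
    isCompact_Icc.image Complex.continuous_ofReal
  have hsub : (fun x : ℝ => (x : ℂ)) '' Set.Icc (1 : ℝ) 3 ⊆ {s : ℂ | 1 ≤ s.re} := by
    rintro _ ⟨x, hx, rfl⟩
    simpa using hx.1
  obtain ⟨C, hC⟩ := hK.exists_bound_of_continuousOn (hcont.mono hsub)
  refine ⟨2 * |C| + 1, by have := abs_nonneg C; linarith, fun σ h1 h3 => ?_⟩
  have hb := hC (σ : ℂ) ⟨σ, ⟨h1.le, h3⟩, rfl⟩
  have he := vonMangoldt.eqOn_LFunctionResidueClassAux (q := 1) (a := (1 : ZMod 1)) isUnit_one
    (x := (σ : ℂ)) (by simpa using h1)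
  rw [he] at hb
  have hres : (fun n : ℕ => ((vonMangoldt.residueClass (1 : ZMod 1) n : ℝ) : ℂ)) =
      fun n => (Λ n : ℂ) := by
    funext n
    have : (n : ZMod 1) = 1 := Subsingleton.elim _ _
    simp only [vonMangoldt.residueClass, Set.indicator_apply, Set.mem_ofPred_eq, this, if_true]
  simp only [hres] at hb
  have habs : absSeries σ = ‖LSeries (fun n => (Λ n : ℂ)) σ‖ := by
    have hL : LSeries (fun n => (Λ n : ℂ)) σ = ((absSeries σ : ℝ) : ℂ) := by
      unfold LSeries absSeries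
      rw [Complex.ofReal_tsum]
      apply tsum_congr
      intro n
      rcases eq_or_ne n 0 with rfl | hn
      · simp
      · rw [LSeries.term_of_ne_zero hn]
        push_cast
        rw [Complex.ofReal_cpow n.cast_nonneg]
        simp
    rw [hL, Complex.norm_real, Real.norm_of_nonneg]
    exact tsum_nonneg fun n => div_nonneg vonMangoldt_nonneg (by positivity)
  have hpos : 0 < σ - 1 := by linarith
  have h4 : ‖(((1 : ℕ).totient : ℂ))⁻¹ / ((σ : ℂ) - 1)‖ = 1 / (σ - 1) := by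
    simp only [Nat.totient_one, Nat.cast_one, inv_one, norm_div, norm_one]
    rw [← Complex.ofReal_one, ← Complex.ofReal_sub, Complex.norm_real, Real.norm_of_nonneg hpos.le]
  have h5 : ‖LSeries (fun n => (Λ n : ℂ)) σ‖ ≤ C + 1 / (σ - 1) := by
    have := norm_sub_norm_le (LSeries (fun n => (Λ n : ℂ)) σ)
      ((((1 : ℕ).totient : ℂ))⁻¹ / ((σ : ℂ) - 1))
    rw [h4] at this
    linarith
  rw [habs]
  refine h5.trans ?_
  rw [le_div_iff₀ hpos]
  have h6 : (C + 1 / (σ - 1)) * (σ - 1) = C * (σ - 1) + 1 := by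
    field_simp
  rw [h6]
  have h7 : C * (σ - 1) ≤ |C| * (σ - 1) := mul_le_mul_of_nonneg_right (le_abs_self C) hpos.le
  have h8 : |C| * (σ - 1) ≤ |C| * 2 := mul_le_mul_of_nonneg_left (by linarith) (abs_nonneg C)
  linarith

end MP774a5f
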